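import Mathlib

/-!
# Representations with big general linear monodromy, and representations unrelated to them

`Γ` is a group, in the applications the absolute Galois group of a finitely generated field, and `K`
is an algebraically closed field of characteristic zero, in the applications an algebraic closure of
the field of `ℓ`-adic numbers. All representations are finite dimensional over `K`.
-/

namespace Pool.Agent.T6.H17.LU

open Module

variable {K : Type} [Field K] {Γ : Type} [Group Γ] {V : Type} [AddCommGroup V] [Module K V]

/-- The Lie algebra of the group of the bilinear form `B`: the operators `Y` with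
`B(Y x, y) + B(x, Y y) = 0`. -/
def lieAlg (B : V →ₗ[K] V →ₗ[K] K) : Submodule K (End K V) where
  carrier := {Y | ∀ x y, B (Y x) y + B x (Y y) = 0}
  zero_mem' := fun x y => by simp
  add_mem' := by
    intro X Y hX hY x y
    have h1 := hX x y
    have h2 := hY x y
    rw [LinearMap.add_apply, LinearMap.add_apply, map_add, map_add, LinearMap.add_apply]
    linear_combination h1 + h2
  smul_mem' := by
    intro c X hX x y
    have h1 := hX x y
    rw [LinearMap.smul_apply, LinearMap.smul_apply, map_smul, map_smul, LinearMap.smul_apply,
      smul_eq_mul, smul_eq_mul]
    linear_combination c * h1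

/-- The adjoint action of the group on the subspace `L` of the space of operators is irreducible. -/
def AdjointIrreducible (ρ : Representation K Γ V) (L : Submodule K (End K V)) : Prop :=
  ∀ N : Submodule K (End K V), N ≤ L → (∀ g, ∀ Y ∈ N, ρ g * Y * ρ g⁻¹ ∈ N) → N = ⊥ ∨ N = L

/-- **Big monodromy.** The operators of trace zero on `V` are an irreducible representation of `Γ`, and
`Γ` contains an element no power of which acts by a scalar (so `V` has dimension at least two). If `Γ`
is a compact group which acts continuously on an `ℓ`-adic vector space, this means that the Zariski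
closure of the image of `Γ` contains the special linear group. -/
structure BigMonodromy (ρ : Representation K Γ V) : Prop where
  irreducible : AdjointIrreducible ρ (LinearMap.ker (LinearMap.trace K V))
  infinite : ∃ γ, ∀ n : ℕ, 0 < n → ∀ c : K, ρ γ ^ n ≠ c • 1

/-- There are no nonzero linear maps from `V` to `M` which are equivariant up to scalars. -/
def NoTwist (ρ : Representation K Γ V) {M : Type} [AddCommGroup M] [Module K M]
    (τ : Representation K Γ M) : Prop :=
  ∀ (c : Γ → K) (T : V →ₗ[K] M), (∀ g v, T (ρ g v) = c g • τ g (T v)) → T = 0

/-- The representations **unrelated** to the representation `ρ` on `V`. They are built, by tensor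
products, duals and exact sequences (in particular subrepresentations, quotients and extensions; the
maps need only be equivariant under a subgroup of finite index), from representations `τ` of the
following kinds:

* `small`: the dimension of `τ` is less than the dimension of `V`;
* `abelian`: some subgroup of finite index acts by commuting operators (for instance varieties of
  CM type, and all Tate twists);
* `semisimple`: some element of `Γ` acts semisimply in `τ` but not on `V` (for instance an element of
  an inertia group at a place of potentially good reduction of the variety in question and of bad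
  reduction of the abelian variety);
* `eigenvalue`: some element `γ` of `Γ` (for instance a Frobenius element) has two eigenvalues `β`, `β'`
  on `V` such that no power of `β / β'` is a product of integral powers of the eigenvalues of `γ`
  in `τ`;
* `form`: `τ` is a representation by similitudes of a bilinear form `B'` for which the adjoint
  representation on the Lie algebra of `B'` is irreducible, and this Lie algebra does not have the
  dimension `(dim V)² - 1` (for instance the first cohomology of an abelian variety with big symplectic
  monodromy, or the primitive cohomology of a surface with big orthogonal monodromy);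
* `linear`: the adjoint representation of `τ` on the operators of trace zero is irreducible, and `τ` and
  `V` have different dimensions;
* `twist`: the adjoint representation of `τ` on the operators of trace zero is irreducible, and there
  are no nonzero linear maps, equivariant up to scalars, from `V` to `τ` or to the dual of `τ`. -/
inductive Unrelated (ρ : Representation K Γ V) :
    ∀ {M : Type} [AddCommGroup M] [Module K M] [FiniteDimensional K M],
      Representation K Γ M → Prop
  | small {M : Type} [AddCommGroup M] [Module K M] [FiniteDimensional K M]
      (τ : Representation K Γ M) (h : finrank K M < finrank K V) : Unrelated ρ τ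
  | abelian {M : Type} [AddCommGroup M] [Module K M] [FiniteDimensional K M]
      (τ : Representation K Γ M) (Δ : Subgroup Γ) (hΔ : Δ.FiniteIndex)
      (h : ∀ g ∈ Δ, ∀ g' ∈ Δ, τ g * τ g' = τ g' * τ g) : Unrelated ρ τ
  | semisimple {M : Type} [AddCommGroup M] [Module K M] [FiniteDimensional K M]
      (τ : Representation K Γ M) (γ : Γ) (h : End.IsSemisimple (τ γ))
      (h' : ¬ End.IsSemisimple (ρ γ)) : Unrelated ρ τ
  | eigenvalue {M : Type} [AddCommGroup M] [Module K M] [FiniteDimensional K M]
      (τ : Representation K Γ M) (γ : Γ) (β β' : K) (h : End.HasEigenvalue (ρ γ) β)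
      (h' : End.HasEigenvalue (ρ γ) β')
      (h'' : ∀ n : ℕ, 0 < n →
        ∀ u ∈ Subgroup.closure {u : Kˣ | End.HasEigenvalue (τ γ) (u : K)}, β ^ n ≠ u * β' ^ n) :
      Unrelated ρ τ
  | form {M : Type} [AddCommGroup M] [Module K M] [FiniteDimensional K M]
      (τ : Representation K Γ M) (B' : M →ₗ[K] M →ₗ[K] K) (χ' : Γ →* K)
      (h : ∀ g x y, B' (τ g x) (τ g y) = χ' g * B' x y) (hi : AdjointIrreducible τ (lieAlg B'))
      (h' : finrank K (lieAlg B') + 1 ≠ finrank K V ^ 2) : Unrelated ρ τ
  | linear {M : Type} [AddCommGroup M] [Module K M] [FiniteDimensional K M]
      (τ : Representation K Γ M) (hi : AdjointIrreducible τ (LinearMap.ker (LinearMap.trace K M)))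
      (h' : finrank K M ≠ finrank K V) : Unrelated ρ τ
  | twist {M : Type} [AddCommGroup M] [Module K M] [FiniteDimensional K M]
      (τ : Representation K Γ M) (hi : AdjointIrreducible τ (LinearMap.ker (LinearMap.trace K M)))
      (h' : NoTwist ρ τ) (h'' : NoTwist ρ τ.dual) : Unrelated ρ τ
  | exact {N M Q : Type} [AddCommGroup N] [Module K N] [FiniteDimensional K N]
      [AddCommGroup M] [Module K M] [FiniteDimensional K M]
      [AddCommGroup Q] [Module K Q] [FiniteDimensional K Q]
      (σ : Representation K Γ N) (τ : Representation K Γ M) (π : Representation K Γ Q)
      (f : N →ₗ[K] M) (g : M →ₗ[K] Q) (Δ : Subgroup Γ) (hΔ : Δ.FiniteIndex)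
      (hf : ∀ s ∈ Δ, ∀ x, f (σ s x) = τ s (f x)) (hg : ∀ s ∈ Δ, ∀ x, g (τ s x) = π s (g x))
      (hfg : Function.Exact f g) (h : Unrelated ρ σ) (h' : Unrelated ρ π) : Unrelated ρ τ
  | tensor {M N : Type} [AddCommGroup M] [Module K M] [FiniteDimensional K M]
      [AddCommGroup N] [Module K N] [FiniteDimensional K N]
      (σ : Representation K Γ M) (τ : Representation K Γ N) (h : Unrelated ρ σ)
      (h' : Unrelated ρ τ) : Unrelated ρ (σ.tprod τ)
  | dual {M : Type} [AddCommGroup M] [Module K M] [FiniteDimensional K M]
      (τ : Representation K Γ M) (h : Unrelated ρ τ) : Unrelated ρ τ.dual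

section paired

variable {J : Type} {V : J → Type} [∀ j, AddCommGroup (V j)] [∀ j, Module K (V j)]

/-- The pairings of `V i` with all the `V j` are symmetric, or they are antisymmetric. -/
def IsSymm (ω : ∀ i j, V i →ₗ[K] V j →ₗ[K] K) (i : J) : Prop :=
  (∀ j x y, ω i j x y = ω j i y x) ∨ ∀ j x y, ω i j x y = -ω j i y x

/-- The pairings are compatible with the actions, up to the multipliers `χ i`. -/
def HasMultiplier (ρ : ∀ j, Representation K Γ (V j)) (ω : ∀ i j, V i →ₗ[K] V j →ₗ[K] K)
    (χ : J → Γ →* K) : Prop := ∀ i j g x y, ω i j (ρ i g x) (ρ j g y) = χ i g * ω i j x y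

/-- **Representations in dual pairs.** `j ↦ j*` is an involution without fixed points of the index set,
the form `ω i j` pairs `V i` and `V j`; it is zero if `j ≠ i*`, and it is a perfect pairing, symmetric or
antisymmetric, with the multiplier `χ i`, if `j = i*`. For instance the first cohomology of an abelian
variety with multiplication by a CM field decomposes, over an algebraic closure, into representations
`V σ` indexed by the embeddings `σ` of the field; a polarization pairs `V σ` with `V σ*`, where `σ*` is
the complex conjugate embedding, and `χ σ` is the inverse of the cyclotomic character. -/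
structure IsPaired (star : J → J) (ρ : ∀ j, Representation K Γ (V j))
    (ω : ∀ i j, V i →ₗ[K] V j →ₗ[K] K) (χ : J → Γ →* K) : Prop where
  star_star : ∀ j, star (star j) = j
  star_ne : ∀ j, star j ≠ j
  zero : ∀ i j, j ≠ star i → ω i j = 0
  nondegenerate : ∀ i x, (∀ y, ω i (star i) x y = 0) → x = 0
  symm : ∀ i, IsSymm ω i
  multiplier : HasMultiplier ρ ω χ

end paired

/-- A vector of `V i` as a vector of `V j`: the same vector if `i = j`, and zero if `i ≠ j`. -/
def toFactor {J : Type} [DecidableEq J] {V : J → Type} [∀ j, AddCommGroup (V j)]
    [∀ j, Module K (V j)] (i j : J) : V i →ₗ[K] V j :=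
  if h : i = j then h ▸ LinearMap.id else 0

/-- **The determinant** of a family of vectors of `V j`, as many as the dimension, with respect to a
basis: the invariant of the special linear group. In the applications it is a Weil class. -/
noncomputable def volume {J : Type} (V : J → Type) [∀ j, AddCommGroup (V j)]
    [∀ j, Module K (V j)] [∀ j, FiniteDimensional K (V j)] (j : J)
    (v : Fin (finrank K (V j)) → V j) : K := (Module.finBasis K (V j)).det v

section products

variable {J : Type} [DecidableEq J] {V : J → Type} [∀ j, AddCommGroup (V j)] [∀ j, Module K (V j)]
  [∀ j, FiniteDimensional K (V j)] {S : Type} {c : S → J} {r m : ℕ} {d : Fin r → J}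

/-- The positions of `m` pairs of variables, and of `r` groups of variables, the group with the number
`q` consists of `dim (V (d q))` variables. -/
abbrev Positions (K : Type) [Field K] (V : J → Type) [∀ j, AddCommGroup (V j)]
    [∀ j, Module K (V j)] (d : Fin r → J) (m : ℕ) : Type :=
  (Fin m × Fin 2) ⊕ (Σ q : Fin r, Fin (finrank K (V (d q))))

/-- the first element of a pair -/
def fst (e : Positions K V d m ≃ S) (l : Fin m) : S := e (.inl (l, 0))

/-- the second element of a pair -/
def snd (e : Positions K V d m ≃ S) (l : Fin m) : S := e (.inl (l, 1))

/-- the elements of a group -/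
def member (e : Positions K V d m ≃ S) (q : Fin r) (y : Fin (finrank K (V (d q)))) : S :=
  e (.inr ⟨q, y⟩)

/-- the value of the pairing -/
def pair (ω : ∀ i j, V i →ₗ[K] V j →ₗ[K] K) {i j : J} (x : V i) (y : V j) : K := ω i j x y

/-- the product of the pairings of the pairs of variables -/
def pairings (ω : ∀ i j, V i →ₗ[K] V j →ₗ[K] K) (e : Positions K V d m ≃ S) (x : ∀ s, V (c s)) : K :=
  ∏ l, pair ω (x (fst e l)) (x (snd e l))

/-- the product of the determinants of the groups of variables, considered as vectors of `V (d q)`
(and zero if they are in another `V j`) -/
noncomputable def determinants (e : Positions K V d m ≃ S) (x : ∀ s, V (c s)) : K :=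
  ∏ q, volume (K := K) V (d q) fun y => toFactor (K := K) _ (d q) (x (member e q y))

/-- **Products of pairings and determinants.** The variables `x s`, `s` in `S`, are divided, by the
bijection `e`, into pairs and groups. -/
noncomputable def product (ω : ∀ i j, V i →ₗ[K] V j →ₗ[K] K) (e : Positions K V d m ≃ S)
    (x : ∀ s, V (c s)) : K := pairings ω e x * determinants e x

/-- The character by which the group acts on the product of pairings and determinants: the product of
the multipliers `χ` of the pairings and of the determinants of the representations `V (d q)`. -/
noncomputable def character (ρ : ∀ j, Representation K Γ (V j)) (χ : J → Γ →* K) (c : S → J)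
    (e : Positions K V d m ≃ S) (g : Γ) : K :=
  (∏ l, χ (c (fst e l)) g) * ∏ q, LinearMap.det (ρ (d q) g)

end products

/-- The representation `τ` acts on the vector `w` by the function `ψ`, on a subgroup of finite index. -/
def ActsBy {M : Type} [AddCommGroup M] [Module K M] (τ : Representation K Γ M) (ψ : Γ → K) (w : M) :
    Prop := ∃ Δ : Subgroup Γ, Δ.FiniteIndex ∧ ∀ g ∈ Δ, τ g w = ψ g • w

end Pool.Agent.T6.H17.LU
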