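import Mathlib
import Pool.Agent.T6.H17.LO.Core

/-!
# The special linear Lie algebra
-/

set_option autoImplicit false
set_option linter.unusedSectionVars false

namespace Pool.Agent.T6.H17.LU

open Module Finset Function Pool.Agent.T6.H17.LW Pool.Agent.T6.H17.LO

variable {K : Type} [Field K] {V : Type} [AddCommGroup V] [Module K V]

section basis

variable {m : ℕ} (e : Basis (Fin m) K V)

/-- the elementary operators -/
noncomputable def EE (i j : Fin m) : End K V := (e.coord j).smulRight (e i)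

theorem EE_apply (i j : Fin m) (x : V) : EE e i j x = e.repr x j • e i := rfl

theorem EE_basis (i j k : Fin m) : EE e i j (e k) = if k = j then e i else 0 := by
  rw [EE_apply, e.repr_self, Finsupp.single_apply]
  by_cases h : k = j
  · rw [if_pos h, if_pos h, one_smul]
  · rw [if_neg h, if_neg h, zero_smul]

theorem EE_mul (i j k l : Fin m) : EE e i j * EE e k l = if k = j then EE e i l else 0 := by
  refine e.ext fun x => ?_
  rw [End.mul_apply, EE_basis]
  by_cases h : x = l
  · rw [if_pos h, EE_basis]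
    by_cases h' : k = j
    · rw [if_pos h', if_pos h', EE_basis, if_pos h]
    · rw [if_neg h', if_neg h', LinearMap.zero_apply]
  · rw [if_neg h, map_zero]
    by_cases h' : k = j
    · rw [if_pos h', EE_basis, if_neg h]
    · rw [if_neg h', LinearMap.zero_apply]

theorem trace_EE (i j : Fin m) : LinearMap.trace K V (EE e i j) = if i = j then 1 else 0 := by
  have _i : FiniteDimensional K V := Module.Finite.of_basis e
  rw [EE, LinearMap.trace_smulRight, Basis.coord_apply, e.repr_self, Finsupp.single_apply]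

theorem EE_mem {i j : Fin m} (h : i ≠ j) : EE e i j ∈ LinearMap.ker (LinearMap.trace K V) := by
  rw [LinearMap.mem_ker, trace_EE, if_neg h]

theorem EE_ne (i j : Fin m) : EE e i j ≠ 0 := by
  intro h
  have h1 := LinearMap.congr_fun h (e j)
  rw [EE_basis, if_pos rfl, LinearMap.zero_apply] at h1
  exact e.ne_zero _ h1

theorem sum_EE (Z : End K V) : ∑ i, ∑ j, e.repr (Z (e j)) i • EE e i j = Z := by
  refine e.ext fun k => ?_
  rw [LinearMap.sum_apply]
  conv_rhs => rw [← e.sum_repr (Z (e k))]
  refine Finset.sum_congr rfl fun i _ => ?_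
  rw [LinearMap.sum_apply, Finset.sum_eq_single k]
  · rw [LinearMap.smul_apply, EE_basis, if_pos rfl]
  · intro j _ hj
    rw [LinearMap.smul_apply, EE_basis, if_neg (Ne.symm hj), smul_zero]
  · intro h
    exact absurd (Finset.mem_univ _) h

/-- a subspace which contains the elementary operators and their differences -/
theorem le_of_EE {𝔨 : Submodule K (End K V)} (h : ∀ i j, i ≠ j → EE e i j ∈ 𝔨)
    (h' : ∀ i j, i ≠ j → EE e i i - EE e j j ∈ 𝔨) : LinearMap.ker (LinearMap.trace K V) ≤ 𝔨 := by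
  intro Z hZ
  rw [LinearMap.mem_ker] at hZ
  rcases Nat.eq_zero_or_pos m with hm | hm
  · subst hm
    have h1 : Z = 0 := by
      rw [← sum_EE e Z]
      exact Finset.sum_eq_zero fun i _ => i.elim0
    rw [h1]
    exact 𝔨.zero_mem
  let o : Fin m := ⟨0, hm⟩
  have h1 : Z = ∑ i, ∑ j, (if i = j then e.repr (Z (e i)) i • (EE e i i - EE e o o) else
      e.repr (Z (e j)) i • EE e i j) := by
    have h2 : ∑ i, e.repr (Z (e i)) i = 0 := by
      conv_rhs => rw [← hZ]
      conv_rhs => rw [← sum_EE e Z]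
      rw [map_sum]
      refine Finset.sum_congr rfl fun i _ => ?_
      rw [map_sum, Finset.sum_eq_single i]
      · rw [map_smul, trace_EE, if_pos rfl, smul_eq_mul, mul_one]
      · intro j _ hj
        rw [map_smul, trace_EE, if_neg (Ne.symm hj), smul_zero]
      · intro h
        exact absurd (Finset.mem_univ _) h
    have h3 : ∀ i j, (if i = j then e.repr (Z (e i)) i • (EE e i i - EE e o o) else
      e.repr (Z (e j)) i • EE e i j) = e.repr (Z (e j)) i • EE e i j -
        (if i = j then e.repr (Z (e i)) i • EE e o o else 0) := by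
      intro i j
      by_cases hij : i = j
      · subst hij
        rw [if_pos rfl, if_pos rfl, smul_sub]
      · rw [if_neg hij, if_neg hij, sub_zero]
    have h4 : (∑ i, ∑ j, (if i = j then e.repr (Z (e i)) i • EE e o o else 0)) = 0 := by
      have h5 : ∀ i, (∑ j, (if i = j then e.repr (Z (e i)) i • EE e o o else 0)) =
          e.repr (Z (e i)) i • EE e o o := fun i => by
        rw [Finset.sum_ite_eq, if_pos (Finset.mem_univ _)]
      rw [Finset.sum_congr rfl fun i _ => h5 i, ← Finset.sum_smul, h2, zero_smul]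
    rw [Finset.sum_congr rfl fun i _ => Finset.sum_congr rfl fun j _ => h3 i j]
    rw [Finset.sum_congr rfl fun i _ => Finset.sum_sub_distrib _ _, Finset.sum_sub_distrib, h4,
      sub_zero, sum_EE]
  rw [h1]
  refine 𝔨.sum_mem fun i _ => 𝔨.sum_mem fun j _ => ?_
  by_cases hij : i = j
  · rw [if_pos hij]
    by_cases hio : i = o
    · rw [hio, sub_self, smul_zero]
      exact 𝔨.zero_mem
    · exact 𝔨.smul_mem _ (h' i o hio)
  · rw [if_neg hij]
    exact 𝔨.smul_mem _ (h i j hij)

theorem br_diag (i j : Fin m) :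
    EE e i j * EE e j i - EE e j i * EE e i j = EE e i i - EE e j j := by
  rw [EE_mul, EE_mul, if_pos rfl, if_pos rfl]

theorem diag_mem (i j : Fin m) :
    EE e i i - EE e j j ∈ LinearMap.ker (LinearMap.trace K V) := by
  rw [LinearMap.mem_ker, map_sub, trace_EE, trace_EE, if_pos rfl, if_pos rfl, sub_self]

theorem br_diag_off {i j : Fin m} (h : i ≠ j) :
    (EE e i i - EE e j j) * EE e i j - EE e i j * (EE e i i - EE e j j) = (2 : K) • EE e i j := by
  rw [sub_mul, mul_sub, EE_mul, EE_mul, EE_mul, EE_mul, if_pos rfl, if_neg h, if_neg h, if_pos rfl]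
  module

end basis

variable [CharZero K] [FiniteDimensional K V]

theorem sl_perfect : Perfect (LinearMap.ker (LinearMap.trace K V)) := by
  have e := Module.finBasis K V
  have h1 : ∀ i j, i ≠ j → EE e i j ∈ Submodule.span K {Z : End K V |
      ∃ A ∈ LinearMap.ker (LinearMap.trace K V), ∃ B ∈ LinearMap.ker (LinearMap.trace K V),
        Z = A * B - B * A} := by
    intro i j hij
    have h2 : EE e i j = (2 : K)⁻¹ • ((EE e i i - EE e j j) * EE e i j -
        EE e i j * (EE e i i - EE e j j)) := by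
      rw [br_diag_off e hij, smul_smul, inv_mul_cancel₀ two_ne_zero, one_smul]
    rw [h2]
    exact Submodule.smul_mem _ _ (Submodule.subset_span ⟨_, diag_mem e i j, _, EE_mem e hij, rfl⟩)
  intro Y hY
  refine le_of_EE e h1 (fun i j hij => ?_) hY
  rw [← br_diag e i j]
  exact Submodule.subset_span ⟨_, EE_mem e hij, _, EE_mem e (Ne.symm hij), rfl⟩

section simple

variable {m : ℕ} (e : Basis (Fin m) K V)

/-- the double bracket with an operator of square zero -/
theorem double_br {X Z : End K V} (hX : X * X = 0) :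
    X * (X * Z - Z * X) - (X * Z - Z * X) * X = (-2 : K) • (X * Z * X) := by
  have h1 : X * (X * Z - Z * X) - (X * Z - Z * X) * X = (X * X) * Z + Z * (X * X) +
      (-2 : K) • (X * Z * X) := by
    rw [mul_sub, sub_mul, neg_smul, two_smul]
    noncomm_ring
  rw [h1, hX, zero_mul, mul_zero, zero_add, zero_add]

theorem EE_sq {i j : Fin m} (h : i ≠ j) : EE e i j * EE e i j = 0 := by
  rw [EE_mul, if_neg h]

theorem EE_Z_EE (Z : End K V) (i j : Fin m) :
    EE e j i * Z * EE e j i = e.repr (Z (e j)) i • EE e j i := by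
  refine e.ext fun k => ?_
  rw [End.mul_apply, End.mul_apply, LinearMap.smul_apply]
  by_cases h : k = i
  · rw [EE_basis, if_pos h, EE_apply]
  · rw [EE_basis, if_neg h, map_zero, map_zero, smul_zero]

/-- an off diagonal entry -/
theorem mem_of_entry {𝔨 : Submodule K (End K V)}
    (hid : ∀ Y ∈ LinearMap.ker (LinearMap.trace K V), ∀ Z ∈ 𝔨, Y * Z - Z * Y ∈ 𝔨)
    {Z : End K V} (hZ : Z ∈ 𝔨) {i j : Fin m} (hij : i ≠ j) (h : e.repr (Z (e j)) i ≠ 0) :
    EE e j i ∈ 𝔨 := by
  have h1 := hid _ (EE_mem e (Ne.symm hij)) _ (hid _ (EE_mem e (Ne.symm hij)) _ hZ)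
  rw [double_br (EE_sq e (Ne.symm hij)), EE_Z_EE, smul_smul] at h1
  exact (Submodule.smul_mem_iff _ (mul_ne_zero (neg_ne_zero.2 two_ne_zero) h)).1 h1

theorem repr_EE (i j k l : Fin m) : e.repr (EE e i j (e k)) l = if k = j ∧ l = i then 1 else 0 := by
  rw [EE_basis]
  by_cases h : k = j
  · rw [if_pos h, e.repr_self, Finsupp.single_apply]
    by_cases h' : i = l
    · rw [if_pos h', if_pos ⟨h, h'.symm⟩]
    · rw [if_neg h', if_neg (fun h2 => h' h2.2.symm)]
  · rw [if_neg h, if_neg (fun h2 => h h2.1), map_zero, Finsupp.zero_apply]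

theorem all_mem {𝔨 : Submodule K (End K V)}
    (hid : ∀ Y ∈ LinearMap.ker (LinearMap.trace K V), ∀ Z ∈ 𝔨, Y * Z - Z * Y ∈ 𝔨)
    {i j : Fin m} (hij : i ≠ j) (h : EE e i j ∈ 𝔨) : ∀ k l, k ≠ l → EE e k l ∈ 𝔨 := by
  -- the transposed operator
  have ht : ∀ i j, i ≠ j → EE e i j ∈ 𝔨 → EE e j i ∈ 𝔨 := by
    intro i j hij h
    refine mem_of_entry e hid h hij ?_
    rw [repr_EE, if_pos ⟨rfl, rfl⟩]
    exact one_ne_zero
  -- the first index
  have h1 : ∀ i j k, i ≠ j → k ≠ j → EE e i j ∈ 𝔨 → EE e k j ∈ 𝔨 := by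
    intro i j k hij hkj h
    by_cases hki : k = i
    · rw [hki]
      exact h
    · have h2 := hid _ (EE_mem e hki) _ h
      rw [EE_mul, EE_mul, if_pos rfl, if_neg hkj, sub_zero] at h2
      exact h2
  intro k l hkl
  by_cases hkj : k = j
  · subst hkj
    -- from `(i, k)`: `(k, i)`, hence `(l, i)` or ...
    have h2 := ht i k hij h
    by_cases hli : l = i
    · rw [hli]
      exact h2
    · -- `(l, k)` from `(i, k)`
      have h3 := h1 i k l hij (Ne.symm hkl) h
      exact ht _ _ (Ne.symm hkl) h3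
  · have h2 := h1 i j k hij hkj h
    have h3 := ht _ _ hkj h2
    by_cases hlj : l = j
    · rw [hlj]
      exact h2
    · exact ht _ _ (Ne.symm hkl) (h1 j k l (Ne.symm hkj) (Ne.symm hkl) h3)

theorem exists_EE {𝔨 : Submodule K (End K V)} (h𝔨 : 𝔨 ≤ LinearMap.ker (LinearMap.trace K V))
    (hid : ∀ Y ∈ LinearMap.ker (LinearMap.trace K V), ∀ Z ∈ 𝔨, Y * Z - Z * Y ∈ 𝔨)
    (hne : 𝔨 ≠ ⊥) : ∃ i j, i ≠ j ∧ EE e i j ∈ 𝔨 := by
  obtain ⟨Z, hZ, hZ0⟩ := Submodule.exists_mem_ne_zero_of_ne_bot hne
  by_cases hoff : ∃ i j, i ≠ j ∧ e.repr (Z (e j)) i ≠ 0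
  · obtain ⟨i, j, hij, h⟩ := hoff
    exact ⟨j, i, Ne.symm hij, mem_of_entry e hid hZ hij h⟩
  push Not at hoff
  -- the operator is diagonal
  have hdiag : ∀ j, Z (e j) = e.repr (Z (e j)) j • e j := by
    intro j
    conv_lhs => rw [← e.sum_repr (Z (e j))]
    rw [Finset.sum_eq_single j]
    · intro i _ hi
      rw [hoff i j hi, zero_smul]
    · intro h
      exact absurd (Finset.mem_univ _) h
  obtain ⟨i, j, hij⟩ : ∃ i j, e.repr (Z (e i)) i ≠ e.repr (Z (e j)) j := by
    by_contra hcon
    push Not at hcon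
    rcases Nat.eq_zero_or_pos m with hm | hm
    · subst hm
      apply hZ0
      exact e.ext fun i => i.elim0
    let o : Fin m := ⟨0, hm⟩
    have h1 : Z = e.repr (Z (e o)) o • (1 : End K V) := by
      refine e.ext fun j => ?_
      rw [hdiag, hcon j o]
      rfl
    have h2 := h𝔨 hZ
    rw [LinearMap.mem_ker, h1, map_smul, LinearMap.trace_one, smul_eq_mul] at h2
    have h3 : (finrank K V : K) ≠ 0 := by
      rw [finrank_eq_card_basis e, Fintype.card_fin]
      exact_mod_cast hm.ne'
    apply hZ0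
    rw [h1, (mul_eq_zero.1 h2).resolve_right h3, zero_smul]
  have hij' : i ≠ j := by
    rintro rfl
    exact hij rfl
  refine ⟨i, j, hij', ?_⟩
  have h1 := hid _ (EE_mem e hij') _ hZ
  have h2 : EE e i j * Z - Z * EE e i j =
      (e.repr (Z (e j)) j - e.repr (Z (e i)) i) • EE e i j := by
    refine e.ext fun k => ?_
    rw [LinearMap.sub_apply, End.mul_apply, End.mul_apply, LinearMap.smul_apply, EE_basis]
    by_cases h : k = j
    · rw [if_pos h, h, sub_smul]
      congr 1
      exact hdiag i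
    · rw [if_neg h, map_zero, sub_zero, smul_zero, hdiag k, map_smul, EE_basis, if_neg h, smul_zero]
  rw [h2] at h1
  exact (Submodule.smul_mem_iff _ (sub_ne_zero.2 (Ne.symm hij))).1 h1

end simple

theorem sl_simple : Simple (LinearMap.ker (LinearMap.trace K V)) := by
  intro 𝔨 h𝔨 hid
  by_cases hne : 𝔨 = ⊥
  · exact Or.inl hne
  · right
    have e := Module.finBasis K V
    obtain ⟨i, j, hij, h⟩ := exists_EE e h𝔨 hid hne
    have hall := all_mem e hid hij h
    refine le_antisymm h𝔨 (le_of_EE e hall fun i j hij => ?_)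
    rw [← br_diag e i j]
    exact hid _ (EE_mem e hij) _ (hall j i (Ne.symm hij))

theorem sl_ne_bot (h : 2 ≤ finrank K V) : LinearMap.ker (LinearMap.trace K V) ≠ ⊥ := by
  have e := Module.finBasis K V
  intro h0
  have h1 := EE_mem e (i := ⟨0, by omega⟩) (j := ⟨1, by omega⟩) (by simp)
  rw [h0, Submodule.mem_bot] at h1
  exact EE_ne e _ _ h1

theorem finrank_sl [Nontrivial V] :
    finrank K (LinearMap.ker (LinearMap.trace K V)) + 1 = finrank K V ^ 2 := by
  have h1 := LinearMap.finrank_range_add_finrank_ker (LinearMap.trace K V)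
  have h2 : LinearMap.range (LinearMap.trace K V) = ⊤ := by
    rw [LinearMap.range_eq_top]
    intro c
    refine ⟨(c * (finrank K V : K)⁻¹) • 1, ?_⟩
    rw [map_smul, LinearMap.trace_one, smul_eq_mul, mul_assoc, inv_mul_cancel₀, mul_one]
    exact_mod_cast (finrank_pos (R := K) (M := V)).ne'
  rw [h2, finrank_top, finrank_self, finrank_linearMap] at h1
  rw [pow_two]
  omega

/-- **Small representations** of the special linear Lie algebra. -/
theorem sl_small (h : 2 ≤ finrank K V) (M : Type) [AddCommGroup M] [Module K M]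
    [FiniteDimensional K M] (φ : LinearMap.ker (LinearMap.trace K V) →ₗ[K] End K M)
    (hφ : ∀ Y Z W : LinearMap.ker (LinearMap.trace K V), (W : End K V) = Y * Z - Z * Y →
      φ W = φ Y * φ Z - φ Z * φ Y) (hinj : Injective φ) : finrank K V ≤ finrank K M := by
  have hV : Nontrivial V := Module.nontrivial_of_finrank_pos (R := K) (by omega)
  have hM : Nontrivial M := by
    by_contra hM
    rw [not_nontrivial_iff_subsingleton] at hM
    obtain ⟨Z, hZ, hZ0⟩ := Submodule.exists_mem_ne_zero_of_ne_bot (sl_ne_bot (K := K) h)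
    apply hZ0
    have h1 : (⟨Z, hZ⟩ : LinearMap.ker (LinearMap.trace K V)) = 0 := by
      apply hinj
      exact LinearMap.ext fun x => Subsingleton.elim _ _
    exact congrArg Subtype.val h1
  -- the image consists of operators of trace zero
  have h1 : LinearMap.ker (LinearMap.trace K V) ≤
      (LinearMap.ker ((LinearMap.trace K M).comp φ)).map (Submodule.subtype _) := by
    intro Y hY
    refine (Submodule.span_le.2 ?_) (sl_perfect Y hY)
    rintro _ ⟨A, hA, B, hB, rfl⟩
    have hW : A * B - B * A ∈ LinearMap.ker (LinearMap.trace K V) := by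
      rw [LinearMap.mem_ker, map_sub, LinearMap.trace_mul_comm, sub_self]
    refine ⟨⟨_, hW⟩, ?_, rfl⟩
    rw [SetLike.mem_coe, LinearMap.mem_ker, LinearMap.comp_apply,
      hφ ⟨A, hA⟩ ⟨B, hB⟩ ⟨_, hW⟩ rfl, map_sub, LinearMap.trace_mul_comm, sub_self]
  have h2 : ∀ Y, φ Y ∈ LinearMap.ker (LinearMap.trace K M) := by
    intro Y
    obtain ⟨Y', hY', hYY⟩ := h1 Y.2
    have h3 : Y' = Y := Subtype.ext hYY
    rw [← h3]
    exact hY'
  have h3 : finrank K (LinearMap.ker (LinearMap.trace K V)) ≤
      finrank K (LinearMap.ker (LinearMap.trace K M)) :=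
    LinearMap.finrank_le_finrank_of_injective (f := φ.codRestrict _ h2) (by
      intro x y hxy
      exact hinj (congrArg Subtype.val hxy))
  have h4 := finrank_sl (K := K) (V := V)
  have h5 := finrank_sl (K := K) (V := M)
  have h6 : finrank K V ^ 2 ≤ finrank K M ^ 2 := by omega
  exact (Nat.pow_le_pow_iff_left two_ne_zero).1 h6

end Pool.Agent.T6.H17.LU
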