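import Mathlib
import Pool.Agent.T6.H17.LU.Sl
import Pool.Agent.T6.H17.LW.Iso
import Pool.Agent.W522.U.A5

/-!
# Isomorphisms of special linear Lie algebras come from twisted equivariant maps
-/

set_option autoImplicit false
set_option linter.unusedSectionVars false

namespace Pool.Agent.T6.H17.LU

open Module Finset Function Pool.Agent.T6.H17.LW Pool.Agent.T6.H17.LO

variable {K : Type} [Field K] [CharZero K] {V : Type} [AddCommGroup V] [Module K V]

theorem exists_dual_one {x : V} (hx : x ≠ 0) : ∃ φ : Dual K V, φ x = 1 := by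
  obtain ⟨φ, hφ⟩ : ∃ φ : Dual K V, φ x ≠ 0 := by
    by_contra hcon
    push Not at hcon
    exact hx ((Module.forall_dual_apply_eq_zero_iff K x).1 hcon)
  exact ⟨(φ x)⁻¹ • φ, by rw [LinearMap.smul_apply, smul_eq_mul, inv_mul_cancel₀ hφ]⟩

variable [IsAlgClosed K] [FiniteDimensional K V]

/-- **Extremal elements have rank one.** -/
theorem rank_one_of_extremal {N : End K V} (h0 : LinearMap.trace K V N = 0)
    (hN : ∀ Y : End K V, ∃ c : K, N * (N * Y - Y * N) - (N * Y - Y * N) * N = c • N) :
    ∃ (p : V) (α : Dual K V), α p = 0 ∧ N = α.smulRight p := by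
  rcases subsingleton_or_nontrivial V with hV | hV
  · exact ⟨0, 0, map_zero _, LinearMap.ext fun x => Subsingleton.elim _ _⟩
  have hN' : ∀ Y : End K V, ∃ c : K, N * N * Y - (2 : K) • (N * Y * N) + Y * (N * N) = c • N := by
    intro Y
    obtain ⟨c, hc⟩ := hN Y
    refine ⟨c, ?_⟩
    rw [← hc, two_smul]
    noncomm_ring
  -- an eigenvector
  obtain ⟨μ, hμ⟩ := Module.End.exists_eigenvalue N
  obtain ⟨x, hx⟩ := hμ.exists_hasEigenvector
  have hx1 : N x = μ • x := hx.apply_eq_smul
  have hx0 : x ≠ 0 := hx.2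
  obtain ⟨φ, hφ⟩ := exists_dual_one (K := K) hx0
  have hA : (N - μ • (1 : End K V)) ^ 3 = 0 := by
    apply LinearMap.ext
    intro y
    obtain ⟨c, hc⟩ := hN' (φ.smulRight y)
    have h1 := LinearMap.congr_fun hc x
    simp only [LinearMap.add_apply, LinearMap.sub_apply, LinearMap.smul_apply, End.mul_apply,
      LinearMap.smulRight_apply, hx1, map_smul, hφ, one_smul, smul_eq_mul, mul_one] at h1
    have h2 : (N - μ • (1 : End K V)) ((N - μ • (1 : End K V)) y) = (c * μ) • x := by
      simp only [LinearMap.sub_apply, LinearMap.smul_apply, End.one_apply, map_sub, map_smul]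
      rw [mul_smul, ← h1]
      module
    rw [pow_succ', pow_two, End.mul_apply, End.mul_apply, h2, map_smul, LinearMap.sub_apply, hx1,
      LinearMap.smul_apply, End.one_apply, sub_self, smul_zero, LinearMap.zero_apply]
  have hμ0 : μ = 0 := by
    have h1 : IsNilpotent (N - μ • (1 : End K V)) := ⟨3, hA⟩
    have h2 := (LinearMap.isNilpotent_trace_of_isNilpotent h1).eq_zero
    rw [map_sub, h0, map_smul, LinearMap.trace_one, zero_sub, neg_eq_zero, smul_eq_mul] at h2
    refine (mul_eq_zero.1 h2).resolve_right ?_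
    exact_mod_cast (finrank_pos (R := K) (M := V)).ne'
  rw [hμ0, zero_smul, sub_zero] at hA
  have hsq : N * N = 0 := by
    by_contra hne
    obtain ⟨v, hv⟩ : ∃ v, (N * N) v ≠ 0 := by
      by_contra hcon
      push Not at hcon
      exact hne (LinearMap.ext hcon)
    obtain ⟨ψ, hψ⟩ := exists_dual_one (K := K) hv
    obtain ⟨c, hc⟩ := hN' (ψ.smulRight v)
    have h1 := congrArg (fun X => N * X * N) hc
    have h2 : N * (N * N * ψ.smulRight v - (2 : K) • (N * ψ.smulRight v * N) +
        ψ.smulRight v * (N * N)) * N = N ^ 3 * ψ.smulRight v * N -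
        (2 : K) • (N * N * ψ.smulRight v * (N * N)) + N * ψ.smulRight v * N ^ 3 := by
      rw [two_smul, two_smul]
      noncomm_ring
    have h3 : N * (c • N) * N = c • N ^ 3 := by
      rw [mul_smul_comm, smul_mul_assoc]
      congr 1
    simp only [h2, h3, hA, zero_mul, mul_zero, zero_sub, add_zero, smul_zero] at h1
    have h4 : N * N * ψ.smulRight v * (N * N) = 0 := by
      rw [neg_eq_zero] at h1
      exact (smul_eq_zero.1 h1).resolve_left two_ne_zero
    have h5 := LinearMap.congr_fun h4 v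
    rw [End.mul_apply, End.mul_apply (N * N), LinearMap.smulRight_apply, hψ, one_smul,
      LinearMap.zero_apply] at h5
    exact hv h5
  by_cases hN0 : N = 0
  · exact ⟨0, 0, map_zero _, by rw [hN0]; ext x; simp⟩
  obtain ⟨v, hv⟩ : ∃ v, N v ≠ 0 := by
    by_contra hcon
    push Not at hcon
    exact hN0 (LinearMap.ext hcon)
  obtain ⟨ψ, hψ⟩ := exists_dual_one (K := K) hv
  refine ⟨N v, ψ.comp N, ?_, ?_⟩
  · rw [LinearMap.comp_apply, ← End.mul_apply, hsq, LinearMap.zero_apply, map_zero]
  · apply LinearMap.ext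
    intro y
    obtain ⟨c, hc⟩ := hN' (ψ.smulRight y)
    rw [hsq, zero_mul, mul_zero, zero_sub, add_zero] at hc
    have h1 := LinearMap.congr_fun hc v
    rw [LinearMap.neg_apply, LinearMap.smul_apply, End.mul_apply, End.mul_apply,
      LinearMap.smulRight_apply, hψ, one_smul, LinearMap.smul_apply] at h1
    have h2 : N y = (-(2 : K)⁻¹ * c) • N v := by
      rw [mul_smul, ← h1, smul_neg, smul_smul]
      rw [neg_mul, inv_mul_cancel₀ two_ne_zero, neg_smul, one_smul, neg_neg]
    rw [LinearMap.smulRight_apply, LinearMap.comp_apply, h2, map_smul, hψ, smul_eq_mul, mul_one]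

section pair

variable {Γ : Type} [Group Γ] {ρ : Representation K Γ V} {pw : Wd K Γ → End K V}
  {M : Type} [AddCommGroup M] [Module K M] [FiniteDimensional K M]
  {τ : Representation K Γ M} {pw' : Wd K Γ → End K M}

theorem tr0_mem (X : End K M) : tr0 X ∈ LinearMap.ker (LinearMap.trace K M) := by
  rcases subsingleton_or_nontrivial M with hM | hM
  · have h1 : tr0 X = 0 := LinearMap.ext fun x => Subsingleton.elim _ _
    rw [h1]
    exact Submodule.zero_mem _
  · exact trace_tr0 _

/-- the pairs -/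
def prs (h : IsAct pw) (h' : IsAct pw') : Submodule K (End K V × End K M) where
  carrier := {x | ∃ w, pw w = x.1 ∧ pw' w = x.2}
  zero_mem' := ⟨.smul 0 (.lo 1), by rw [h.smul, zero_smul]; rfl, by rw [h'.smul, zero_smul]; rfl⟩
  add_mem' := by
    rintro x y ⟨w, h1, h2⟩ ⟨w', h3, h4⟩
    exact ⟨.add w w', by rw [h.add, h1, h3]; rfl, by rw [h'.add, h2, h4]; rfl⟩
  smul_mem' := by
    rintro c x ⟨w, h1, h2⟩
    exact ⟨.smul c w, by rw [h.smul, h1]; rfl, by rw [h'.smul, h2]; rfl⟩

/-- **Two special linear Lie algebras** are independent, or the representations are related. -/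
theorem linear_pair (h : Good ρ (LinearMap.ker (LinearMap.trace K V)) pw)
    (h' : Core τ (LinearMap.ker (LinearMap.trace K M)) pw')
    (hirr : LO.Irr τ (LinearMap.ker (LinearMap.trace K M))) (hd : 2 < finrank K V) :
    Pf (LinearMap.ker (LinearMap.trace K V)) (act ρ) (act τ) ∨
    (∃ (T : V →ₗ[K] M) (c : Γ → K), T ≠ 0 ∧ ∀ g u, T (ρ g u) = c g • τ g (T u)) ∨
    (∃ (T : V →ₗ[K] Dual K M) (c : Γ → K), T ≠ 0 ∧ ∀ g u, T (ρ g u) = c g • τ.dual g (T u)) := by
  rcases h.pair h' hirr with h1 | ⟨φ, hφ⟩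
  · exact Or.inl h1
  right
  have hφ' : ∀ w, (φ ⟨pw w, h.mem w⟩ : End K M) = pw' w := fun w => hφ w (h.mem w)
  have huniq : ∀ w w2, pw w = pw w2 → pw' w = pw' w2 := by
    intro w w2 h0
    rw [← hφ', ← hφ']
    congr 2
    exact Subtype.ext h0
  have huniq' : ∀ w, pw' w = 0 → pw w = 0 := by
    intro w h0
    have h1 : φ ⟨pw w, h.mem w⟩ = 0 := Subtype.ext (by rw [hφ', h0]; rfl)
    rw [LinearEquiv.map_eq_zero_iff] at h1
    exact congrArg Subtype.val h1
  have h00 : ∀ w, pw w = 0 → pw' w = 0 := by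
    intro w h0
    have h1 := huniq w (.smul 0 (.lo 1)) (by rw [h.isAct.smul, zero_smul, h0])
    rw [h1, h'.isAct.smul, zero_smul]
  have hsurj : ∀ Y ∈ LinearMap.ker (LinearMap.trace K M), ∃ w, pw' w = Y := by
    intro Y hY
    obtain ⟨Z, hZ⟩ := φ.surjective ⟨Y, hY⟩
    obtain ⟨w, hw⟩ := h.full Z Z.2
    refine ⟨w, ?_⟩
    rw [← hφ']
    have h2 : (⟨pw w, h.mem w⟩ : LinearMap.ker (LinearMap.trace K V)) = Z := Subtype.ext hw
    rw [h2, hZ]
  have hp : Pool.Agent.W522.U.PairSL ρ τ (prs h.isAct h'.isAct) :=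
    { br := by
        rintro x ⟨w, h1, h2⟩ y ⟨w', h3, h4⟩
        exact ⟨.br w w', by rw [h.isAct.br, h1, h3], by rw [h'.isAct.br, h2, h4]⟩
      conj := by
        rintro g x ⟨w, h1, h2⟩
        exact ⟨cj g w, by rw [h.conj, h1], by rw [h'.conj, h2]⟩
      ker := by
        rintro y ⟨w, h1, h2⟩ _
        have h3 : pw' w = y := h2
        rw [← h3]
        exact h00 w h1
      rk := by
        intro u ψ hψ
        have hmem : (ψ.smulRight u : End K V) ∈ LinearMap.ker (LinearMap.trace K V) := by
          rw [LinearMap.mem_ker, LinearMap.trace_smulRight, hψ]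
        obtain ⟨w, hw⟩ := h.full _ hmem
        have hext := rank_one_of_extremal (N := pw' w) (h'.mem w) (fun Y => by
          obtain ⟨w', hw'⟩ := hsurj (tr0 Y) (tr0_mem Y)
          refine ⟨-2 * ψ (pw w' u), ?_⟩
          have e1 : pw (.br w (.br w w')) = pw (.smul (-2 * ψ (pw w' u)) w) := by
            rw [h.isAct.br, h.isAct.br, h.isAct.smul, hw, double_br]
            · rw [mul_smul]
              congr 1
              apply LinearMap.ext
              intro v
              simp only [End.mul_apply, LinearMap.smulRight_apply, LinearMap.smul_apply, map_smul,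
                smul_eq_mul, smul_smul]
              rw [mul_comm]
            · apply LinearMap.ext
              intro v
              rw [End.mul_apply, LinearMap.smulRight_apply, LinearMap.smulRight_apply, map_smul, hψ,
                smul_zero, zero_smul, LinearMap.zero_apply]
          have e2 := huniq _ _ e1
          rw [h'.isAct.br, h'.isAct.br, h'.isAct.smul, hw'] at e2
          rw [← e2, tr0_apply]
          simp only [mul_sub, sub_mul, mul_smul_comm, smul_mul_assoc, mul_one, one_mul]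
          module)
        obtain ⟨p, α, h1, h2⟩ := hext
        exact ⟨p, α, h1, w, hw, h2⟩
      inj := by
        rintro u ψ hu hψ hψu ⟨w, h1, h2⟩
        have h3 := huniq' w h2
        rw [h3] at h1
        exact Pool.Agent.W522.U.smulRight_ne hu hψ h1.symm
      dim := hd }
  rcases Pool.Agent.W522.U.sl_pair hp with ⟨T, c, h1, h2⟩ | ⟨T, c, h1, h2⟩
  · exact Or.inl ⟨T, c, h1, h2⟩
  · exact Or.inr ⟨T, c, h1, h2⟩

section two

/-- the determinant form in dimension two -/
noncomputable def om2 {W : Type} [AddCommGroup W] [Module K W] (e : Basis (Fin 2) K W) :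
    W →ₗ[K] W →ₗ[K] K :=
  (e.coord 0).smulRight (e.coord 1) - (e.coord 1).smulRight (e.coord 0)

variable {W : Type} [AddCommGroup W] [Module K W] (e : Basis (Fin 2) K W)

theorem om2_apply (x y : W) :
    om2 e x y = e.repr x 0 * e.repr y 1 - e.repr x 1 * e.repr y 0 := rfl

theorem om2_alt (x : W) : om2 e x x = 0 := by
  rw [om2_apply]
  ring

theorem om2_nondeg (x : W) (h : ∀ y, om2 e x y = 0) : x = 0 := by
  have h0 := h (e 0)
  have h1 := h (e 1)
  rw [om2_apply, e.repr_self, Finsupp.single_apply, Finsupp.single_apply] at h0 h1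
  simp at h0 h1
  rw [← e.sum_repr x, Fin.sum_univ_two, h0, h1, zero_smul, zero_smul, add_zero]

theorem repr_mul (Y : End K W) (x : W) (i : Fin 2) : e.repr (Y x) i =
    LinearMap.toMatrix e e Y i 0 * e.repr x 0 + LinearMap.toMatrix e e Y i 1 * e.repr x 1 := by
  have h1 := congrFun (LinearMap.toMatrix_mulVec_repr e e Y x) i
  rw [Matrix.mulVec, dotProduct, Fin.sum_univ_two] at h1
  exact h1.symm

theorem om2_trace (Y : End K W) (x y : W) :
    om2 e (Y x) y + om2 e x (Y y) = LinearMap.trace K W Y * om2 e x y := by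
  rw [LinearMap.trace_eq_matrix_trace K e, Matrix.trace, Fin.sum_univ_two, om2_apply, om2_apply,
    om2_apply, repr_mul, repr_mul, repr_mul, repr_mul, Matrix.diag_apply, Matrix.diag_apply]
  ring

theorem om2_det (Y : End K W) (x y : W) : om2 e (Y x) (Y y) = LinearMap.det Y * om2 e x y := by
  rw [← LinearMap.det_toMatrix e, Matrix.det_fin_two, om2_apply, om2_apply, repr_mul, repr_mul,
    repr_mul, repr_mul]
  ring

theorem spL_om2 : spL (om2 e) = LinearMap.ker (LinearMap.trace K W) := by
  ext Y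
  rw [LinearMap.mem_ker, mem_spL]
  constructor
  · intro h
    have h1 := h (e 0) (e 1)
    rw [om2_trace] at h1
    refine (mul_eq_zero.1 h1).resolve_right ?_
    rw [om2_apply, e.repr_self, e.repr_self]
    simp
  · intro h x y
    rw [om2_trace, h, zero_mul]

variable [FiniteDimensional K W] {σ : Representation K Γ W} {qw : Wd K Γ → End K W}

theorem full_om2 (h : Good σ (LinearMap.ker (LinearMap.trace K W)) qw) :
    Full σ (om2 e) (LinearMap.det.comp σ) := by
  intro u v
  have h1 : SS (om2 e) u v ∈ LinearMap.ker (LinearMap.trace K W) := by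
    rw [← spL_om2 e]
    exact SS_mem_spL (om2_alt e) u v
  obtain ⟨w, hw⟩ := h.full_act _ h1
  refine ⟨w, ?_⟩
  have h2 : LW.sp σ (LinearMap.det.comp σ) w ∈ LinearMap.ker (LinearMap.trace K W) := by
    rw [← spL_om2 e]
    exact sp_mem (fun g u v => om2_det e (σ g) u v) w
  rw [LinearMap.mem_ker, LW.sp, hw, map_sub, LinearMap.mem_ker.1 h1, zero_sub, neg_eq_zero,
    map_smul, LinearMap.trace_one, finrank_eq_card_basis e, Fintype.card_fin, smul_eq_mul] at h2
  have h3 := (mul_eq_zero.1 h2).resolve_right (by norm_num)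
  rw [LW.sp, h3, zero_smul, sub_zero, hw]

end two

theorem linear_pair2 (h : Good ρ (LinearMap.ker (LinearMap.trace K V)) pw)
    (h' : Core τ (LinearMap.ker (LinearMap.trace K M)) pw')
    (hirr : LO.Irr τ (LinearMap.ker (LinearMap.trace K M))) (hd : finrank K V = 2) :
    Pf (LinearMap.ker (LinearMap.trace K V)) (act ρ) (act τ) ∨
    (∃ (T : V →ₗ[K] M) (c : Γ → K), T ≠ 0 ∧ ∀ g u, T (ρ g u) = c g • τ g (T u)) := by
  rcases h.pair h' hirr with h1 | ⟨φ, hφ⟩
  · exact Or.inl h1
  have hV : Nontrivial V := Module.nontrivial_of_finrank_pos (R := K) (by omega)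
  have h2 : finrank K (LinearMap.ker (LinearMap.trace K V)) =
      finrank K (LinearMap.ker (LinearMap.trace K M)) := φ.finrank_eq
  have h3 := finrank_sl (K := K) (V := V)
  have hM : Nontrivial M := by
    by_contra hM
    rw [not_nontrivial_iff_subsingleton] at hM
    have h4 : finrank K (LinearMap.ker (LinearMap.trace K M)) ≤ finrank K (End K M) :=
      Submodule.finrank_le _
    have h5 : finrank K (End K M) = 0 := by
      rw [finrank_linearMap, finrank_zero_of_subsingleton, zero_mul]
    rw [hd] at h3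
    omega
  have h4 := finrank_sl (K := K) (V := M)
  have hdM : finrank K M = 2 := by
    have h5 : finrank K V ^ 2 = finrank K M ^ 2 := by omega
    rw [← hd]
    exact ((Nat.pow_left_injective (n := 2) (by norm_num)) h5).symm
  have hsurj : ∀ Y ∈ LinearMap.ker (LinearMap.trace K M), ∃ w, pw' w = Y := by
    intro Y hY
    obtain ⟨Z, hZ⟩ := φ.surjective ⟨Y, hY⟩
    obtain ⟨w, hw⟩ := h.full Z Z.2
    refine ⟨w, ?_⟩
    rw [← hφ w (h.mem w)]
    have h2 : (⟨pw w, h.mem w⟩ : LinearMap.ker (LinearMap.trace K V)) = Z := Subtype.ext hw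
    rw [h2, hZ]
  have hg' : Good τ (LinearMap.ker (LinearMap.trace K M)) pw' :=
    { toCore := h'
      full := hsurj
      perfect := sl_perfect
      simple := sl_simple
      ne_bot := sl_ne_bot (by omega) }
  let e : Basis (Fin 2) K V := (Module.finBasis K V).reindex (finCongr hd)
  let e' : Basis (Fin 2) K M := (Module.finBasis K M).reindex (finCongr hdM)
  rcases pair_step (fun g u v => om2_det e (ρ g) u v) (om2_alt e) (om2_nondeg e)
    (fun g u v => om2_det e' (τ g) u v) (om2_alt e') (om2_nondeg e')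
    (full_om2 e h) (full_om2 e' hg') with h5 | ⟨c, T, hT, -, hc⟩
  · left
    rwa [spL_om2 e] at h5
  · right
    refine ⟨T, c, ?_, hc⟩
    rintro rfl
    obtain ⟨y, hy⟩ := exists_ne (0 : M)
    obtain ⟨x, hx⟩ := hT y
    exact hy hx.symm

end pair

end Pool.Agent.T6.H17.LU
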