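import Mathlib
import Pool.Agent.T6.H17.LU.Defs
import Pool.Agent.T6.H17.LU.Tw
import Pool.Agent.T6.H17.LO.Ortho

/-!
# Representations with big general linear monodromy
-/

set_option autoImplicit false
set_option linter.unusedSectionVars false

namespace Pool.Agent.T6.H17.LU

open Module Finset Function TensorProduct Pool.Agent.T6.H17.LW
open Pool.Agent.T6.H17.LO (Core Good core_linear core_form)

variable {K : Type} [Field K] [CharZero K] [IsAlgClosed K] {Γ : Type} [Group Γ]
  {V : Type} [AddCommGroup V] [Module K V] [FiniteDimensional K V] {ρ : Representation K Γ V}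

theorem BigMonodromy.two_le (hb : BigMonodromy ρ) : 2 ≤ finrank K V := by
  by_contra hcon
  obtain ⟨γ, hγ⟩ := hb.infinite
  have h1 : finrank K V = 0 ∨ finrank K V = 1 := by omega
  rcases h1 with h1 | h1
  · have hV : Subsingleton V := finrank_zero_iff.1 h1
    exact hγ 1 one_pos 0 (LinearMap.ext fun x => Subsingleton.elim _ _)
  · obtain ⟨v, hv, hv'⟩ := finrank_eq_one_iff'.1 h1
    obtain ⟨c, hc⟩ := hv' (ρ γ v)
    refine hγ 1 one_pos c (LinearMap.ext fun x => ?_)
    obtain ⟨a, rfl⟩ := hv' x
    rw [pow_one, map_smul, ← hc, LinearMap.smul_apply, End.one_apply, smul_comm]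

theorem good_of (hb : BigMonodromy ρ) :
    Good ρ (LinearMap.ker (LinearMap.trace K V)) (fun w => tr0 (act ρ w)) where
  toCore := core_linear ρ
  full := by
    obtain ⟨γ, hγ⟩ := hb.infinite
    exact (core_linear ρ).full_of_irr hb.irreducible ((core_linear ρ).exists_word hγ)
  perfect := sl_perfect
  simple := sl_simple
  ne_bot := sl_ne_bot hb.two_le

/-- **Unrelated representations are independent.** -/
theorem pf_of_unrelated (hb : BigMonodromy ρ) {M : Type} [AddCommGroup M] [Module K M]
    [FiniteDimensional K M] {τ : Representation K Γ M} (h : Unrelated ρ τ) :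
    Pf (LinearMap.ker (LinearMap.trace K V)) (act ρ) (act τ) := by
  have hg := good_of hb
  have hV : Nontrivial V := Module.nontrivial_of_finrank_pos (R := K) (by
    have := hb.two_le
    omega)
  have hf := finrank_sl (K := K) (V := V)
  induction h with
  | small τ h =>
    exact hg.pf_of_small (isAct_act τ) (d := finrank K V)
      (fun M _ _ _ φ h1 h2 => sl_small hb.two_le M φ h1 h2) h
  | abelian τ Δ hΔ h => exact pf_abelian hg.perfect (isAct_act ρ) hg.full_act τ hΔ h
  | semisimple τ γ h h' => exact hg.pf_of_semisimple τ h h'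
  | eigenvalue τ γ β β' h h' h'' => exact hg.pf_of_eigenvalue τ h h' h''
  | form τ B' χ' h hi h' =>
    refine hg.pf_of_finrank (𝔥 := lieAlg B') (core_form h) hi fun h1 => h' ?_
    rw [h1, hf]
  | @linear M _ _ _ τ hi h' =>
    refine hg.pf_of_finrank (core_linear τ) hi
      fun (h1 : finrank K (LinearMap.ker (LinearMap.trace K M)) =
        finrank K (LinearMap.ker (LinearMap.trace K V))) => h' ?_
    have hM : Nontrivial M := by
      by_contra hM
      rw [not_nontrivial_iff_subsingleton] at hM
      have h2 : finrank K (LinearMap.ker (LinearMap.trace K M)) ≤ finrank K (End K M) :=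
        Submodule.finrank_le _
      have h3 : finrank K (End K M) = 0 := by
        rw [finrank_linearMap, finrank_zero_of_subsingleton, zero_mul]
      have h4 := Nat.pow_le_pow_left hb.two_le 2
      omega
    have h4 := finrank_sl (K := K) (V := M)
    have h5 : finrank K V ^ 2 = finrank K M ^ 2 := by omega
    exact ((Nat.pow_left_injective (n := 2) (by norm_num)) h5).symm
  | twist τ hi h' h'' =>
    rcases Nat.lt_or_ge 2 (finrank K V) with h2 | h2
    · rcases linear_pair hg (core_linear τ) hi h2 with h3 | ⟨T, c, hT, hc⟩ | ⟨T, c, hT, hc⟩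
      · exact h3
      · exact absurd (h' c T hc) hT
      · exact absurd (h'' c T hc) hT
    · rcases linear_pair2 hg (core_linear τ) hi (le_antisymm h2 hb.two_le) with h3 | ⟨T, c, hT, hc⟩
      · exact h3
      · exact absurd (h' c T hc) hT
  | exact σ τ π f g Δ hΔ hf hg' hfg _ _ ih ih' =>
    exact pf_exact hg.perfect (isAct_act ρ) σ τ π f g ⟨Δ, hΔ, hf⟩ ⟨Δ, hΔ, hg'⟩
      (fun x hx => (hfg x).1 hx) ih ih'
  | tensor σ τ _ _ ih ih' => exact pf_tensor hg.perfect (isAct_act ρ) σ τ ih ih'
  | dual τ _ ih => exact pf_dual τ ih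

end Pool.Agent.T6.H17.LU
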