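import Mathlib
import Pool.Agent.T6.H17.LU.Gl
import Pool.Agent.W522.U.B1
import Pool.Agent.Y90.SL2

/-!
# The form on the sum, and an adapted basis
-/

set_option autoImplicit false
set_option linter.unusedSectionVars false

namespace Pool.Agent.T6.H17.LU

open Module Finset Function Pool.Agent.T6.H17.LW

variable {K : Type} [Field K] [CharZero K] {J : Type} [Fintype J] [DecidableEq J]
  {V : J → Type} [∀ j, AddCommGroup (V j)] [∀ j, Module K (V j)] [∀ j, FiniteDimensional K (V j)]
  {star : J → J} {ω : ∀ i j, V i →ₗ[K] V j →ₗ[K] K} {Γ : Type} [Group Γ]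
  {ρ : ∀ j, Representation K Γ (V j)} {χ : J → Γ →* K}

/-- signs which make the form alternating -/
theorem exists_sign (hP : IsPaired star ρ ω χ) : ∃ ε : J → K, (∀ i, ε i ≠ 0) ∧
    ∀ i x y, ε (star i) * ω (star i) i y x = -(ε i * ω i (star i) x y) := by
  classical
  have hs : ∀ i, ∃ s : K, (s = 1 ∨ s = -1) ∧ ∀ j x y, ω i j x y = s * ω j i y x := by
    intro i
    rcases hP.symm i with h | h
    · exact ⟨1, Or.inl rfl, fun j x y => by rw [one_mul, h]⟩
    · exact ⟨-1, Or.inr rfl, fun j x y => by rw [neg_one_mul, h]⟩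
  choose s hs1 hs2 using hs
  let f := Fintype.equivFin J
  have hs0 : ∀ i, s i ≠ 0 := by
    intro i
    rcases hs1 i with h | h
    · rw [h]
      exact one_ne_zero
    · rw [h]
      exact neg_ne_zero.2 one_ne_zero
  refine ⟨fun i => if f i < f (star i) then 1 else -s (star i), fun i => ?_, fun i x y => ?_⟩
  · by_cases h : f i < f (star i)
    · simp only [if_pos h]
      exact one_ne_zero
    · simp only [if_neg h]
      exact neg_ne_zero.2 (hs0 _)
  · have hne : f i ≠ f (star i) := fun h => hP.star_ne i (f.injective h).symm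
    simp only [hP.star_star]
    rcases lt_or_gt_of_ne hne with h | h
    · rw [if_pos h, if_neg (not_lt.2 h.le), hs2 i (star i) x y]
      ring
    · rw [if_neg (not_lt.2 h.le), if_pos h, hs2 (star i) i y x]
      ring

/-- An adapted symplectic basis. -/
structure Adp (star : J → J) (ω : ∀ i j, V i →ₗ[K] V j →ₗ[K] K) {m : ℕ}
    (e : Basis (Fin m ⊕ Fin m) K (∀ j, V j)) (lab : Fin m ⊕ Fin m → J) (ε : J → K)
    (Ω : (∀ j, V j) →ₗ[K] (∀ j, V j) →ₗ[K] K) : Prop where
  eps : ∀ j, ε j ≠ 0
  om : ∀ x y, Ω x y = ∑ i, ε i * ω i (star i) (x i) (y (star i))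
  alt : ∀ x, Ω x x = 0
  skew : ∀ x y, Ω x y = -Ω y x
  off : ∀ x j, j ≠ lab x → e x j = 0
  lab_swap : ∀ x, lab x.swap = star (lab x)
  orth : ∀ x y, y ≠ x.swap → Ω (e x) (e y) = 0
  ne : ∀ x, Ω (e x) (e x.swap) ≠ 0

theorem exists_adp (hP : IsPaired star ρ ω χ) : ∃ (m : ℕ)
    (e : Basis (Fin m ⊕ Fin m) K (∀ j, V j)) (lab : Fin m ⊕ Fin m → J) (ε : J → K)
    (Ω : (∀ j, V j) →ₗ[K] (∀ j, V j) →ₗ[K] K), Adp star ω e lab ε Ω := by
  classical
  obtain ⟨ε, hε0, hε⟩ := exists_sign hP
  let Ω : (∀ j, V j) →ₗ[K] (∀ j, V j) →ₗ[K] K :=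
    ∑ i, ε i • (ω i (star i)).compl₁₂ (LinearMap.proj i) (LinearMap.proj (star i))
  have hΩ : ∀ x y, Ω x y = ∑ i, ε i * ω i (star i) (x i) (y (star i)) := by
    intro x y
    change (∑ i, ε i • (ω i (star i)).compl₁₂ (LinearMap.proj i) (LinearMap.proj (star i))) x y = _
    rw [LinearMap.sum_apply, LinearMap.sum_apply]
    rfl
  let st : Equiv.Perm J := ⟨star, star, hP.star_star, hP.star_star⟩
  have hsk : ∀ x y, Ω x y = -Ω y x := by
    intro x y
    rw [hΩ, hΩ, ← Finset.sum_neg_distrib, ← Equiv.sum_comp st]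
    refine Finset.sum_congr rfl fun i _ => ?_
    change ε (star i) * ω (star i) (star (star i)) (x (star i)) (y (star (star i))) = _
    have h1 := hε i (y i) (x (star i))
    have h2 : ∀ j, j = i → ω (star i) j (x (star i)) (y j) = ω (star i) i (x (star i)) (y i) := by
      rintro j rfl
      rfl
    rw [h2 _ (hP.star_star i), h1]
  have halt : ∀ x, Ω x x = 0 := by
    intro x
    have h1 := hsk x x
    have h2 : (2 : K) * Ω x x = 0 := by linear_combination h1
    exact (mul_eq_zero.1 h2).resolve_left two_ne_zero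
  have hsingle : ∀ x i (v : V (star i)), Ω x (Pi.single (star i) v) = ε i * ω i (star i) (x i) v := by
    intro x i v
    rw [hΩ, Finset.sum_eq_single i]
    · rw [Pi.single_eq_same]
    · intro j _ hj
      have h1 : star j ≠ star i := by
        intro h
        apply hj
        rw [← hP.star_star j, h, hP.star_star]
      rw [Pi.single_eq_of_ne h1, map_zero, mul_zero]
    · intro h
      exact absurd (Finset.mem_univ _) h
  have hnd : ∀ z, (∀ w, Ω z w = 0) → z = 0 := by
    intro z hz
    funext i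
    refine hP.nondegenerate i (z i) fun y => ?_
    have h1 := hz (Pi.single (star i) y)
    rw [hsingle] at h1
    exact (mul_eq_zero.1 h1).resolve_left (hε0 i)
  let F : J → Submodule K (∀ j, V j) := fun j => LinearMap.range (LinearMap.single K V j)
  have hF : ∀ c d, d ≠ star c → ∀ u ∈ F c, ∀ v ∈ F d, Ω u v = 0 := by
    rintro c d hcd _ ⟨u, rfl⟩ _ ⟨v, rfl⟩
    have hd : d = star (star d) := (hP.star_star d).symm
    rw [LinearMap.single_apply, LinearMap.single_apply, hΩ]
    refine Finset.sum_eq_zero fun i _ => ?_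
    by_cases h1 : i = c
    · have h2 : star i ≠ d := fun h => hcd (by rw [← h, h1])
      rw [Pi.single_eq_of_ne h2, map_zero, mul_zero]
    · rw [Pi.single_eq_of_ne h1, map_zero, LinearMap.zero_apply, mul_zero]
  have htop : ⨆ c, F c = ⊤ := by
    rw [eq_top_iff]
    intro y _
    rw [← Finset.univ_sum_single y]
    exact Submodule.sum_mem _ fun i _ => (le_iSup F i) ⟨y i, rfl⟩
  obtain ⟨m, e, lab, h1, h2, h3, h4⟩ := Pool.Agent.W522.U.exists_sb Ω hsk halt F star
    hP.star_star hF hnd htop
  refine ⟨m, e, lab, ε, Ω, ⟨hε0, hΩ, halt, hsk, ?_, h2, h3, h4⟩⟩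
  intro x j hj
  obtain ⟨u, hu⟩ := h1 x
  rw [← hu, LinearMap.single_apply, Pi.single_eq_of_ne hj]

section adp

variable {m : ℕ} {e : Basis (Fin m ⊕ Fin m) K (∀ j, V j)} {lab : Fin m ⊕ Fin m → J} {ε : J → K}
  {Ω : (∀ j, V j) →ₗ[K] (∀ j, V j) →ₗ[K] K}

theorem Adp.eq_single (h : Adp star ω e lab ε Ω) (x : Fin m ⊕ Fin m) :
    Pi.single (lab x) (e x (lab x)) = e x := by
  funext j
  by_cases hj : j = lab x
  · subst hj
    rw [Pi.single_eq_same]
  · rw [Pi.single_eq_of_ne hj, h.off x j hj]

/-- the vectors of the basis with a given label -/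
noncomputable def Adp.basis (h : Adp star ω e lab ε Ω) (j : J) :
    Basis {x // lab x = j} K (V j) :=
  Basis.mk (v := fun x => e x.1 j) (by
    have h1 : LinearIndependent K (fun x : {x // lab x = j} => e x.1) :=
      e.linearIndependent.comp _ Subtype.val_injective
    refine LinearIndependent.of_comp (LinearMap.single K V j) ?_
    have h2 : (LinearMap.single K V j) ∘ (fun x : {x // lab x = j} => e x.1 j) =
        fun x : {x // lab x = j} => e x.1 := by
      funext x
      obtain ⟨x, rfl⟩ := x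
      exact h.eq_single x
    rw [h2]
    exact h1) (by
    intro v _
    have h1 : v = (Pi.single j v : ∀ i, V i) j := (Pi.single_eq_same j v).symm
    rw [h1, ← e.sum_repr (Pi.single j v), Finset.sum_apply]
    refine Submodule.sum_mem _ fun x _ => ?_
    rw [Pi.smul_apply]
    refine Submodule.smul_mem _ _ ?_
    by_cases hx : lab x = j
    · exact Submodule.subset_span ⟨⟨x, hx⟩, rfl⟩
    · rw [h.off x j (fun h => hx h.symm)]
      exact Submodule.zero_mem _)

theorem Adp.basis_apply (h : Adp star ω e lab ε Ω) (j : J) (x : {x // lab x = j}) :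
    h.basis j x = e x.1 j := by
  rw [Adp.basis, Basis.mk_apply]

/-- the coordinates of the vectors of the basis -/
theorem Adp.repr (h : Adp star ω e lab ε Ω) (j : J) (z : Fin m ⊕ Fin m) (x : {x // lab x = j}) :
    (h.basis j).repr (e z j) x = if z = x.1 then 1 else 0 := by
  by_cases hz : lab z = j
  · have h1 : e z j = h.basis j ⟨z, hz⟩ := (h.basis_apply j ⟨z, hz⟩).symm
    rw [h1, Basis.repr_self, Finsupp.single_apply]
    by_cases h2 : z = x.1
    · rw [if_pos h2, if_pos (Subtype.ext h2)]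
    · rw [if_neg h2, if_neg (fun h3 => h2 (congrArg Subtype.val h3))]
  · rw [h.off z j (fun h => hz h.symm), map_zero, Finsupp.zero_apply, if_neg]
    rintro rfl
    exact hz x.2

theorem Adp.card (h : Adp star ω e lab ε Ω) (j : J) :
    Fintype.card {x // lab x = j} = finrank K (V j) :=
  (finrank_eq_card_basis (h.basis j)).symm

/-- the form on two vectors of the basis -/
theorem Adp.om_e (hP : IsPaired star ρ ω χ) (h : Adp star ω e lab ε Ω) (x y : Fin m ⊕ Fin m)
    {i j : J} (hi : lab x = i) (hj : lab y = j) : Ω (e x) (e y) = ε i * ω i j (e x i) (e y j) := by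
  subst hi
  subst hj
  rw [h.om, Finset.sum_eq_single (lab x)]
  · by_cases h1 : lab y = star (lab x)
    · rw [h1]
    · rw [hP.zero _ _ h1, LinearMap.zero_apply, LinearMap.zero_apply,
        h.off y (star (lab x)) (fun h2 => h1 h2.symm), map_zero]
  · intro k _ hk
    rw [h.off x k hk, map_zero, LinearMap.zero_apply, mul_zero]
  · intro h
    exact absurd (Finset.mem_univ _) h

/-- the form on a vector of the basis and a vector of a factor -/
theorem Adp.om_single (hP : IsPaired star ρ ω χ) (h : Adp star ω e lab ε Ω) (i : J) (x : V i)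
    (j : J) (y : V j) : Ω (Pi.single i x) (Pi.single j y) = ε i * ω i j x y := by
  rw [h.om, Finset.sum_eq_single i]
  · rw [Pi.single_eq_same]
    by_cases h1 : j = star i
    · subst h1
      rw [Pi.single_eq_same]
    · rw [hP.zero _ _ h1, LinearMap.zero_apply, LinearMap.zero_apply,
        Pi.single_eq_of_ne (fun h2 => h1 h2.symm), map_zero]
  · intro k _ hk
    rw [Pi.single_eq_of_ne hk, map_zero, LinearMap.zero_apply, mul_zero]
  · intro h
    exact absurd (Finset.mem_univ _) h

end adp

/-- the diagonal blocks -/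
def blk (X : End K (∀ j, V j)) (i : J) : End K (V i) :=
  (LinearMap.proj i).comp (X.comp (LinearMap.single K V i))

theorem blk_apply (X : End K (∀ j, V j)) (i : J) (v : V i) : blk X i v = X (Pi.single i v) i := rfl

theorem blk_add (X Y : End K (∀ j, V j)) (i : J) : blk (X + Y) i = blk X i + blk Y i := rfl

theorem blk_smul (c : K) (X : End K (∀ j, V j)) (i : J) : blk (c • X) i = c • blk X i := rfl

theorem blk_sub (X Y : End K (∀ j, V j)) (i : J) : blk (X - Y) i = blk X i - blk Y i := rfl

section blocks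

variable {m : ℕ} {e : Basis (Fin m ⊕ Fin m) K (∀ j, V j)} {lab : Fin m ⊕ Fin m → J} {ε : J → K}
  {Ω : (∀ j, V j) →ₗ[K] (∀ j, V j) →ₗ[K] K}

/-- the blocks of the elementary operators -/
theorem Adp.blk_SS (i : J) (x y : ∀ j, V j) (v : V i) : blk (SS Ω x y) i v =
      Ω x (Pi.single i v) • y i + Ω y (Pi.single i v) • x i := by
  rw [blk_apply, SS_apply, Pi.add_apply, Pi.smul_apply, Pi.smul_apply]

/-- the numbers attached to the vectors of the basis -/
noncomputable def jn (e : Basis (Fin m ⊕ Fin m) K (∀ j, V j)) (Ω : (∀ j, V j) →ₗ[K] (∀ j, V j) →ₗ[K] K)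
    (x : Fin m ⊕ Fin m) : K := Ω (e x) (e x.swap)

theorem Adp.JJ_eq (h : Adp star ω e lab ε Ω) (b y : Fin m ⊕ Fin m) :
    Pool.Agent.H204R3.SP.JJ Sum.swap (jn e Ω) b y = Ω (e b) (e y) := by
  unfold Pool.Agent.H204R3.SP.JJ
  by_cases h1 : y = b.swap
  · rw [if_pos h1, h1, jn]
  · rw [if_neg h1, h.orth b y h1]

theorem Adp.blk_e (hP : IsPaired star ρ ω χ) (h : Adp star ω e lab ε Ω) {b c : Fin m ⊕ Fin m}
    (hbc : lab b.swap = lab c) (i : J) (y : Fin m ⊕ Fin m) :
    blk (SS Ω (e b) (e c)) i (e y i) =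
      Ω (e b) (e y) • e c i + Ω (e c) (e y) • e b i := by
  rw [Adp.blk_SS]
  by_cases hy : lab y = i
  · subst hy
    rw [h.eq_single]
  · rw [h.off y i (fun h => hy h.symm), Pi.single_zero, map_zero, map_zero, zero_smul, zero_smul,
      add_zero]
    have h1 : Ω (e b) (e y) • e c i = 0 := by
      by_cases h2 : y = b.swap
      · rw [h.off c i, smul_zero]
        intro h3
        apply hy
        rw [h2, hbc, h3]
      · rw [h.orth b y h2, zero_smul]
    have h2 : Ω (e c) (e y) • e b i = 0 := by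
      by_cases h2 : y = c.swap
      · rw [h.off b i, smul_zero]
        intro h3
        apply hy
        rw [h2, h.lab_swap, ← hbc, h.lab_swap, hP.star_star, h3]
      · rw [h.orth c y h2, zero_smul]
    rw [h1, h2, add_zero]

/-- the blocks vanish outside of a pair -/
theorem Adp.blk_zero (hP : IsPaired star ρ ω χ) (h : Adp star ω e lab ε Ω) {b c : Fin m ⊕ Fin m}
    (hbc : lab b.swap = lab c) (i : J) (h1 : i ≠ lab c) (h2 : i ≠ star (lab c)) :
    blk (SS Ω (e b) (e c)) i = 0 := by
  have h3 : i ≠ lab b := by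
    intro h3
    apply h2
    rw [← hbc, h.lab_swap, hP.star_star, h3]
  apply LinearMap.ext
  intro v
  rw [Adp.blk_SS, h.off c i h1, h.off b i h3, smul_zero, smul_zero, add_zero, LinearMap.zero_apply]

/-- the trace of a block -/
theorem Adp.trace_blk (hP : IsPaired star ρ ω χ) (h : Adp star ω e lab ε Ω) {b c : Fin m ⊕ Fin m}
    (hbc : lab b.swap = lab c) :
    LinearMap.trace K (V (lab c)) (blk (SS Ω (e b) (e c)) (lab c)) = Ω (e b) (e c) := by
  have h3 : lab c ≠ lab b := by
    intro h3
    rw [← hbc, h.lab_swap] at h3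
    exact hP.star_ne _ h3
  have h4 : blk (SS Ω (e b) (e c)) (lab c) =
      ((Ω (e b)).comp (LinearMap.single K V (lab c))).smulRight (e c (lab c)) := by
    apply LinearMap.ext
    intro v
    rw [Adp.blk_SS, h.off b (lab c) h3, smul_zero, add_zero]
    rfl
  rw [h4, LinearMap.trace_smulRight, LinearMap.comp_apply, LinearMap.single_apply, h.eq_single]

end blocks

end Pool.Agent.T6.H17.LU
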