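import Mathlib
import Pool.Agent.T6.H17.LU.Form

/-!
# The first fundamental theorem with determinants, in coordinates
-/

set_option autoImplicit false
set_option linter.unusedSectionVars false

namespace Pool.Agent.T6.H17.LU

open Module Finset Function Pool.Agent.T6.H17.LW Pool.Agent.Y90 Pool.Agent.H204R3.SP

section count

variable {R : Type} [Fintype R] [DecidableEq R] {K : Type} [Field K] {inv : R → R} {jj : R → K}
  (hinv : ∀ x, inv (inv x) = x) (hjj : ∀ x, jj (inv x) = -jj x)
  {κ : Type} [Fintype κ] [DecidableEq κ]

include hinv hjj in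
theorem elemX_self (b : R) (F : (κ → R) → K) (I : κ → R) : elemX inv jj b (inv b) F I =
    (jj b * F I) * (((Finset.univ.filter (fun k => I k = inv b)).card : K) -
      (Finset.univ.filter (fun k => I k = b)).card) := by
  unfold elemX
  have h3 : ∀ k, JJ inv jj b (I k) * F (Function.update I k (inv b)) +
      JJ inv jj (inv b) (I k) * F (Function.update I k b) =
      (jj b * F I) * ((if I k = inv b then 1 else 0) - (if I k = b then 1 else 0)) := by
    intro k
    unfold JJ
    rw [hinv]
    have h4 : (if I k = inv b then jj b else 0) * F (Function.update I k (inv b)) =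
        (jj b * F I) * (if I k = inv b then 1 else 0) := by
      by_cases h : I k = inv b
      · rw [if_pos h, if_pos h, ← h, Function.update_eq_self, mul_one]
      · rw [if_neg h, if_neg h, zero_mul, mul_zero]
    have h5 : (if I k = b then jj (inv b) else 0) * F (Function.update I k b) =
        -((jj b * F I) * (if I k = b then 1 else 0)) := by
      by_cases h : I k = b
      · rw [if_pos h, if_pos h, hjj]
        conv_lhs => rw [← h, Function.update_eq_self, h]
        ring
      · rw [if_neg h, if_neg h, zero_mul, mul_zero, neg_zero]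
    rw [h4, h5]
    ring
  rw [Finset.sum_congr rfl (fun k _ => h3 k), ← Finset.mul_sum, Finset.sum_sub_distrib,
    Finset.sum_boole, Finset.sum_boole]

/-- the sum of the eigenvalues on the determinants -/
theorem sum_mu {Q : Type} [DecidableEq Q] {cls : R → Q} {S : Type} [Fintype S] (C : S → Q)
    (b c : R) : ∑ q, mu (cls := cls) inv jj (C q) b c =
      (if c = inv b then jj b else 0) * ((Finset.univ.filter fun q => C q = cls b).card : K) +
      (if b = inv c then jj c else 0) * ((Finset.univ.filter fun q => C q = cls c).card : K) := by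
  unfold mu
  rw [Finset.sum_add_distrib]
  congr 1
  · have h1 : ∀ q, (if cls b = C q ∧ c = inv b then jj b else 0) =
        (if c = inv b then jj b else 0) * (if C q = cls b then 1 else 0) := by
      intro q
      by_cases h : c = inv b
      · rw [if_pos h]
        by_cases h' : C q = cls b
        · rw [if_pos ⟨h'.symm, h⟩, if_pos h', mul_one]
        · rw [if_neg (fun h2 => h' h2.1.symm), if_neg h', mul_zero]
      · rw [if_neg h, if_neg (fun h2 => h h2.2), zero_mul]
    rw [Finset.sum_congr rfl fun q _ => h1 q, ← Finset.mul_sum, Finset.sum_boole]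
  · have h1 : ∀ q, (if cls c = C q ∧ b = inv c then jj c else 0) =
        (if b = inv c then jj c else 0) * (if C q = cls c then 1 else 0) := by
      intro q
      by_cases h : b = inv c
      · rw [if_pos h]
        by_cases h' : C q = cls c
        · rw [if_pos ⟨h'.symm, h⟩, if_pos h', mul_one]
        · rw [if_neg (fun h2 => h' h2.1.symm), if_neg h', mul_zero]
      · rw [if_neg h, if_neg (fun h2 => h h2.2), zero_mul]
    rw [Finset.sum_congr rfl fun q _ => h1 q, ← Finset.mul_sum, Finset.sum_boole]

end count

variable {K : Type} [Field K] [CharZero K] {J : Type} [Fintype J] [DecidableEq J]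
  {V : J → Type} [∀ j, AddCommGroup (V j)] [∀ j, Module K (V j)] [∀ j, FiniteDimensional K (V j)]
  {star : J → J} {ω : ∀ i j, V i →ₗ[K] V j →ₗ[K] K} {Γ : Type} [Group Γ]
  {ρ : ∀ j, Representation K Γ (V j)} {χ : J → Γ →* K}
  {m : ℕ} {e : Basis (Fin m ⊕ Fin m) K (∀ j, V j)} {lab : Fin m ⊕ Fin m → J} {ε : J → K}
  {Ω : (∀ j, V j) →ₗ[K] (∀ j, V j) →ₗ[K] K} {S : Type} [Fintype S] [DecidableEq S]

/-- the excess, as an integer -/
noncomputable def dz (K : Type) [Field K] (V : J → Type) [∀ j, AddCommGroup (V j)]
    [∀ j, Module K (V j)] (star : J → J) (c : S → J) (j : J) : ℤ :=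
  (((Finset.univ.filter fun s => c s = j).card : ℤ) -
    (Finset.univ.filter fun s => c s = star j).card) / finrank K (V j)

/-- the coordinates -/
noncomputable def crd (e : Basis (Fin m ⊕ Fin m) K (∀ j, V j)) {c : S → J}
    (f : MultilinearMap K (fun s => V (c s)) K) (I : S → Fin m ⊕ Fin m) : K :=
  f fun s => e (I s) (c s)

theorem crd_update {c : S → J} (I : S → Fin m ⊕ Fin m) (s : S) (u : Fin m ⊕ Fin m) :
    (fun t => e (update I s u t) (c t)) = update (fun t => e (I t) (c t)) s (e u (c s)) := by
  funext t
  by_cases hts : t = s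
  · subst hts
    rw [update_self, update_self]
  · rw [update_of_ne hts, update_of_ne hts]

theorem crd_support (h : Adp star ω e lab ε Ω) {c : S → J}
    (f : MultilinearMap K (fun s => V (c s)) K) (I : S → Fin m ⊕ Fin m) (hI : crd e f I ≠ 0) (s : S) :
    lab (I s) = c s := by
  by_contra hne
  apply hI
  refine f.map_coord_zero s ?_
  exact h.off (I s) (c s) (fun h => hne h.symm)

/-- the action of the elementary operators -/
theorem elemX_crd (hP : IsPaired star ρ ω χ) (h : Adp star ω e lab ε Ω) {c : S → J}
    (f : MultilinearMap K (fun s => V (c s)) K) {x y : Fin m ⊕ Fin m} (hxy : lab x.swap = lab y)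
    (I : S → Fin m ⊕ Fin m) : elemX Sum.swap (jn e Ω) x y (crd e f) I =
      ∑ s, f (update (fun t => e (I t) (c t)) s (blk (SS Ω (e x) (e y)) (c s) (e (I s) (c s)))) := by
  unfold elemX
  refine Finset.sum_congr rfl fun s _ => ?_
  rw [h.blk_e hP hxy, MultilinearMap.map_update_add, MultilinearMap.map_update_smul,
    MultilinearMap.map_update_smul, h.JJ_eq, h.JJ_eq, crd, crd, crd_update, crd_update]
  rfl

theorem jn_swap (h : Adp star ω e lab ε Ω) (x : Fin m ⊕ Fin m) : jn e Ω x.swap = -jn e Ω x := by
  rw [jn, jn, Sum.swap_swap, h.skew]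

/-- **The coordinates of an invariant multilinear form.** -/
theorem crd_mem (hP : IsPaired star ρ ω χ) (h : Adp star ω e lab ε Ω)
    (hN : ∀ j, 0 < finrank K (V j)) {c : S → J} {f : MultilinearMap K (fun s => V (c s)) K}
    (hinv : ∀ (j : J) (X : End K (∀ j, V j)), X ∈ spL Ω → (∀ i, i ≠ j → i ≠ star j → blk X i = 0) →
      LinearMap.trace K (V j) (blk X j) = 0 →
      ∀ v, ∑ s, f (update v s (blk X (c s) (v s))) = 0) :
    crd e f ∈ Submodule.span K (PD S lab Sum.swap (jn e Ω)
      (Sigma.fst : (Σ j, Fin (dz K V star c j).toNat) → J)) := by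
  classical
  by_cases hF0 : crd e f = 0
  · rw [hF0]
    exact Submodule.zero_mem _
  obtain ⟨I0, hI0⟩ : ∃ I, crd e f I ≠ 0 := by
    by_contra hcon
    push Not at hcon
    exact hF0 (funext hcon)
  have hsw : ∀ x : Fin m ⊕ Fin m, x.swap.swap = x := Sum.swap_swap
  have hj0 : ∀ x, jn e Ω x ≠ 0 := h.ne
  have hls : ∀ x, lab x.swap = star (lab x) := h.lab_swap
  -- the difference of the numbers of occurrences
  set D : (S → Fin m ⊕ Fin m) → Fin m ⊕ Fin m → ℤ := fun I x =>
    ((Finset.univ.filter (fun k => I k = x)).card : ℤ) -
      (Finset.univ.filter (fun k => I k = x.swap)).card with hD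
  have hself : ∀ x I, elemX Sum.swap (jn e Ω) x.swap x (crd e f) I =
      (jn e Ω x.swap * crd e f I) * ((D I x : ℤ) : K) := by
    intro x I
    have h1 := elemX_self (inv := Sum.swap) (jj := jn e Ω) hsw (jn_swap h) x.swap (crd e f) I
    rw [hsw] at h1
    rw [h1, hD]
    push_cast
    ring
  have hconst : ∀ I, crd e f I ≠ 0 → ∀ x y, lab x = lab y → D I x = D I y := by
    intro I hI x y hxy
    have h1 := hinv (lab x) (jn e Ω y.swap • SS Ω (e x.swap) (e x) -
      jn e Ω x.swap • SS Ω (e y.swap) (e y)) (by
        refine Submodule.sub_mem _ (Submodule.smul_mem _ _ (SS_mem_spL h.alt _ _))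
          (Submodule.smul_mem _ _ (SS_mem_spL h.alt _ _))) (by
        intro i hi hi'
        rw [blk_sub, blk_smul, blk_smul, h.blk_zero hP (by rw [hsw]) i hi hi',
          h.blk_zero hP (by rw [hsw]) i (by rw [← hxy]; exact hi) (by rw [← hxy]; exact hi'),
          smul_zero, smul_zero, sub_zero]) (by
        rw [blk_sub, blk_smul, blk_smul, map_sub, map_smul, map_smul,
          h.trace_blk hP (by rw [hsw])]
        have h2 := h.trace_blk hP (b := y.swap) (c := y) (by rw [hsw])
        rw [hxy, h2, smul_eq_mul, smul_eq_mul]
        have h3 : ∀ x, Ω (e (Sum.swap x)) (e x) = jn e Ω x.swap := by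
          intro x
          rw [jn, hsw]
        rw [h3, h3]
        ring) (fun t => e (I t) (c t))
    have h2 : ∀ s, f (update (fun t => e (I t) (c t)) s
        (blk (jn e Ω y.swap • SS Ω (e x.swap) (e x) -
          jn e Ω x.swap • SS Ω (e y.swap) (e y)) (c s) (e (I s) (c s)))) =
        jn e Ω y.swap * f (update (fun t => e (I t) (c t)) s
          (blk (SS Ω (e x.swap) (e x)) (c s) (e (I s) (c s)))) -
        jn e Ω x.swap * f (update (fun t => e (I t) (c t)) s
          (blk (SS Ω (e y.swap) (e y)) (c s) (e (I s) (c s)))) := by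
      intro s
      rw [blk_sub, blk_smul, blk_smul, LinearMap.sub_apply, LinearMap.smul_apply,
        LinearMap.smul_apply, MultilinearMap.map_update_sub, MultilinearMap.map_update_smul,
        MultilinearMap.map_update_smul, smul_eq_mul, smul_eq_mul]
    rw [Finset.sum_congr rfl fun s _ => h2 s, Finset.sum_sub_distrib, ← Finset.mul_sum,
      ← Finset.mul_sum, ← elemX_crd hP h f (by rw [hsw]), ← elemX_crd hP h f (by rw [hsw]), hself,
      hself] at h1
    have h3 : (jn e Ω y.swap * jn e Ω x.swap * crd e f I) * (((D I x : ℤ) : K) - ((D I y : ℤ) : K))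
        = 0 := by linear_combination h1
    have h4 := (mul_eq_zero.1 h3).resolve_left (mul_ne_zero (mul_ne_zero (hj0 _) (hj0 _)) hI)
    have h5 := sub_eq_zero.1 h4
    exact_mod_cast h5
  -- the value
  have hval : ∀ I, crd e f I ≠ 0 → ∀ x, D I x = dz K V star c (lab x) := by
    intro I hI x
    have hsupp := crd_support h f I hI
    have h1 : ∀ j, ∑ y ∈ Finset.univ.filter (fun y => lab y = j),
        (Finset.univ.filter (fun k => I k = y)).card = (Finset.univ.filter fun s => c s = j).card := by
      intro j
      rw [← Finset.card_biUnion]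
      · congr 1
        ext s
        simp only [Finset.mem_biUnion, Finset.mem_filter, Finset.mem_univ, true_and]
        constructor
        · rintro ⟨y, hy, rfl⟩
          rw [← hsupp s, hy]
        · intro hs
          exact ⟨I s, by rw [hsupp s, hs], rfl⟩
      · intro y _ y' _ hyy'
        rw [Function.onFun, Finset.disjoint_left]
        intro s hs hs'
        rw [Finset.mem_filter] at hs hs'
        exact hyy' (hs.2.symm.trans hs'.2)
    have h2 : ∀ j, ∑ y ∈ Finset.univ.filter (fun y => lab y = j),
        (Finset.univ.filter (fun k => I k = y.swap)).card =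
          (Finset.univ.filter fun s => c s = star j).card := by
      intro j
      rw [← h1 (star j)]
      refine Finset.sum_bij' (fun y _ => y.swap) (fun y _ => y.swap) ?_ ?_ ?_ ?_ ?_
      · intro y hy
        rw [Finset.mem_filter] at hy ⊢
        exact ⟨Finset.mem_univ _, by rw [hls, hy.2]⟩
      · intro y hy
        rw [Finset.mem_filter] at hy ⊢
        exact ⟨Finset.mem_univ _, by rw [hls, hy.2, hP.star_star]⟩
      · intro y _
        exact hsw y
      · intro y _
        exact hsw y
      · intro y _
        rfl
    have h3 : ∑ y ∈ Finset.univ.filter (fun y => lab y = lab x), D I y =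
        (finrank K (V (lab x)) : ℤ) * D I x := by
      rw [Finset.sum_congr rfl fun y hy => hconst I hI y x (Finset.mem_filter.1 hy).2,
        Finset.sum_const, nsmul_eq_mul, ← Fintype.card_subtype, h.card]
    have h4 : (finrank K (V (lab x)) : ℤ) * D I x =
        ((Finset.univ.filter fun s => c s = lab x).card : ℤ) -
          (Finset.univ.filter fun s => c s = star (lab x)).card := by
      rw [← h3, ← h1 (lab x), ← h2 (lab x)]
      push_cast
      rw [← Finset.sum_sub_distrib]
    rw [dz, ← h4, Int.mul_ediv_cancel_left]
    have := hN (lab x)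
    omega
  have hnonempty : ∀ j, ∃ x, lab x = j := by
    intro j
    have h1 := h.card j
    have h2 := hN j
    rw [← h1] at h2
    obtain ⟨x⟩ := Fintype.card_pos_iff.1 h2
    exact ⟨x.1, x.2⟩
  have hneg : ∀ j, dz K V star c (star j) = -dz K V star c j := by
    intro j
    obtain ⟨x, rfl⟩ := hnonempty j
    rw [← hls, ← hval I0 hI0, ← hval I0 hI0, hD]
    simp only [hsw]
    ring
  have hcard : ∀ j, (Finset.univ.filter fun q : Σ j, Fin (dz K V star c j).toNat => q.1 = j).card =
      (dz K V star c j).toNat := by
    intro j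
    have h1 : (Finset.univ.filter fun q : Σ j, Fin (dz K V star c j).toNat => q.1 = j) =
        (Finset.univ : Finset (Fin (dz K V star c j).toNat)).image fun a => ⟨j, a⟩ := by
      ext ⟨i, a⟩
      simp only [Finset.mem_filter, Finset.mem_univ, true_and, Finset.mem_image]
      constructor
      · rintro rfl
        exact ⟨a, rfl⟩
      · rintro ⟨a', ha'⟩
        exact (congrArg Sigma.fst ha').symm
    rw [h1, Finset.card_image_of_injective _ sigma_mk_injective, Finset.card_univ, Fintype.card_fin]
  refine sl_fft (cls := lab) (inv := Sum.swap) (jj := jn e Ω) hsw (jn_swap h) hj0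
    (fun x y hxy => by rw [hls, hls, hxy]) (Sigma.fst : (Σ j, Fin (dz K V star c j).toNat) → J)
    (fun q => star q.1) (fun q y => by rw [hls, y.2]) (fun q q' hqq => ?_) (t := c)
    (fun I hI k => crd_support h f I hI k) (fun x y hxy I => ?_)
  · -- the classes are different
    have h1 : 0 < dz K V star c q.1 := by
      have := q.2.pos
      omega
    have h2 : 0 < dz K V star c q'.1 := by
      have := q'.2.pos
      omega
    rw [← hqq, hneg] at h2
    omega
  · rw [sum_mu]
    by_cases hyx : y = x.swap
    · subst hyx
      rw [if_pos rfl, if_pos (hsw x).symm, hcard, hcard, jn_swap h]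
      have h1 := hself x.swap I
      rw [hsw] at h1
      rw [h1]
      by_cases hI : crd e f I = 0
      · rw [hI]
        ring
      · rw [hval I hI, hls, hneg]
        have h2 : (((dz K V star c (lab x)).toNat : ℕ) : K) - ((-dz K V star c (lab x)).toNat : ℕ) =
            ((dz K V star c (lab x) : ℤ) : K) := by
          have h3 : (((dz K V star c (lab x)).toNat : ℕ) : ℤ) -
              ((-dz K V star c (lab x)).toNat : ℕ) = dz K V star c (lab x) := by omega
          exact_mod_cast congrArg (fun z : ℤ => (z : K)) h3
        push_cast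
        rw [← h2]
        ring
    · have hxy' : ¬ x = y.swap := by
        intro h1
        apply hyx
        rw [h1, hsw]
      rw [if_neg hyx, if_neg hxy', zero_mul, zero_mul, add_zero, zero_mul, neg_zero,
        elemX_crd hP h f hxy]
      refine hinv (lab y) _ (SS_mem_spL h.alt _ _) (fun i hi hi' => h.blk_zero hP hxy i hi hi') ?_ _
      rw [h.trace_blk hP hxy, h.orth x y hyx]

end Pool.Agent.T6.H17.LU
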