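import Mathlib
import Pool.Agent.T6.H17.LU.Coord

/-!
# Products of pairings and determinants
-/

set_option autoImplicit false
set_option linter.unusedSectionVars false

namespace Pool.Agent.T6.H17.LU

open Module Finset Function Pool.Agent.T6.H17.LW Pool.Agent.Y90 Pool.Agent.H204R3.SP

variable {K : Type} [Field K] {J : Type} [DecidableEq J] {V : J → Type} [∀ j, AddCommGroup (V j)]
  [∀ j, Module K (V j)]

theorem toFactor_self (i : J) (x : V i) : toFactor (K := K) i i x = x := by
  unfold toFactor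
  rw [dif_pos rfl]
  rfl

theorem toFactor_ne {i j : J} (h : i ≠ j) (x : V i) : toFactor (K := K) (V := V) i j x = 0 := by
  unfold toFactor
  rw [dif_neg h]
  rfl

theorem toFactor_apply (x : ∀ j, V j) {i j : J} (h : i ≠ j → x j = 0) :
    toFactor (K := K) (V := V) i j (x i) = x j := by
  by_cases hij : i = j
  · subst hij
    exact toFactor_self i _
  · rw [toFactor_ne hij, h hij]

variable [∀ j, FiniteDimensional K (V j)] {S : Type} [Fintype S]

/-- products of pairings and determinants -/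
noncomputable def QP (ω : ∀ i j, V i →ₗ[K] V j →ₗ[K] K) (c : S → J) {r m : ℕ} (d : Fin r → J)
    (E : (Fin m × Fin 2) ⊕ (Σ q : Fin r, Fin (finrank K (V (d q)))) ≃ S) (x : ∀ s, V (c s)) : K :=
  (∏ l, ω (c (E (.inl (l, 0)))) (c (E (.inl (l, 1)))) (x (E (.inl (l, 0)))) (x (E (.inl (l, 1))))) *
    ∏ q, volume (K := K) V (d q) fun y =>
      toFactor (K := K) (c (E (.inr ⟨q, y⟩))) (d q) (x (E (.inr ⟨q, y⟩)))

variable {ω : ∀ i j, V i →ₗ[K] V j →ₗ[K] K} {c : S → J} {r m : ℕ} {d : Fin r → J}

theorem QP_lin [DecidableEq S] (E : (Fin m × Fin 2) ⊕ (Σ q : Fin r, Fin (finrank K (V (d q)))) ≃ S)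
    (x : ∀ s, V (c s)) (s : S) :
    ∃ L : V (c s) →ₗ[K] K, ∀ a, QP ω c d E (update x s a) = L a := by
  have key : ∀ {p q : (Fin m × Fin 2) ⊕ (Σ q : Fin r, Fin (finrank K (V (d q))))}
      (a : V (c (E q))), p ≠ q → update x (E q) a (E p) = x (E p) := by
    intro p q a hpq
    exact update_of_ne (fun h => hpq (E.injective h)) _ _
  obtain ⟨p, rfl⟩ := E.surjective s
  rcases p with ⟨l0, i⟩ | ⟨q0, y0⟩
  · -- a pairing
    have h2 : ∀ (i : Fin 2) (a : V (c (E (.inl (l0, i))))), (∏ q, volume (K := K) V (d q) fun y =>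
        toFactor (K := K) (c (E (.inr ⟨q, y⟩))) (d q) (update x (E (.inl (l0, i))) a (E (.inr ⟨q, y⟩))))
        = ∏ q, volume (K := K) V (d q) fun y =>
          toFactor (K := K) (c (E (.inr ⟨q, y⟩))) (d q) (x (E (.inr ⟨q, y⟩))) := by
      intro i a
      refine Finset.prod_congr rfl fun q _ => ?_
      congr 1
      funext y
      rw [key a (by simp)]
    set D := ∏ q, volume (K := K) V (d q) fun y =>
          toFactor (K := K) (c (E (.inr ⟨q, y⟩))) (d q) (x (E (.inr ⟨q, y⟩))) with hD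
    have hrest : ∀ (i : Fin 2) (a : V (c (E (.inl (l0, i))))),
        ∀ l ∈ (univ : Finset (Fin m)).erase l0,
        ω (c (E (.inl (l, 0)))) (c (E (.inl (l, 1)))) (update x (E (.inl (l0, i))) a (E (.inl (l, 0))))
          (update x (E (.inl (l0, i))) a (E (.inl (l, 1)))) =
        ω (c (E (.inl (l, 0)))) (c (E (.inl (l, 1)))) (x (E (.inl (l, 0)))) (x (E (.inl (l, 1)))) := by
      intro i a l hl
      have hl' := Finset.ne_of_mem_erase hl
      rw [key a, key a]
      · intro h
        exact hl' (congrArg Prod.fst (Sum.inl_injective h))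
      · intro h
        exact hl' (congrArg Prod.fst (Sum.inl_injective h))
    set C := ∏ l ∈ (univ : Finset (Fin m)).erase l0,
      ω (c (E (.inl (l, 0)))) (c (E (.inl (l, 1)))) (x (E (.inl (l, 0)))) (x (E (.inl (l, 1)))) with hC
    fin_cases i
    · refine ⟨(C * D) • (ω (c (E (.inl (l0, 0)))) (c (E (.inl (l0, 1))))).flip (x (E (.inl (l0, 1)))),
        fun a => ?_⟩
      change QP ω c d E (update x (E (.inl (l0, 0))) a) = (C * D) * _
      rw [QP, ← Finset.mul_prod_erase _ _ (Finset.mem_univ l0), Finset.prod_congr rfl (hrest 0 a),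
        h2 0 a, update_self, key (p := .inl (l0, 1)) (q := .inl (l0, 0)) a (by simp)]
      exact (by intro A C D; ring : ∀ A C D : K, A * C * D = C * D * A) _ _ _
    · refine ⟨(C * D) • ω (c (E (.inl (l0, 0)))) (c (E (.inl (l0, 1)))) (x (E (.inl (l0, 0)))),
        fun a => ?_⟩
      change QP ω c d E (update x (E (.inl (l0, 1))) a) = (C * D) * _
      rw [QP, ← Finset.mul_prod_erase _ _ (Finset.mem_univ l0), Finset.prod_congr rfl (hrest 1 a),
        h2 1 a, update_self, key (p := .inl (l0, 0)) (q := .inl (l0, 1)) a (by simp)]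
      exact (by intro A C D; ring : ∀ A C D : K, A * C * D = C * D * A) _ _ _
  · -- a determinant
    have h2 : ∀ a : V (c (E (.inr ⟨q0, y0⟩))),
        (∏ l, ω (c (E (.inl (l, 0)))) (c (E (.inl (l, 1))))
          (update x (E (.inr ⟨q0, y0⟩)) a (E (.inl (l, 0))))
          (update x (E (.inr ⟨q0, y0⟩)) a (E (.inl (l, 1))))) =
        ∏ l, ω (c (E (.inl (l, 0)))) (c (E (.inl (l, 1)))) (x (E (.inl (l, 0))))
          (x (E (.inl (l, 1)))) := by
      intro a
      refine Finset.prod_congr rfl fun l _ => ?_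
      rw [key a (by simp), key a (by simp)]
    set C := ∏ l, ω (c (E (.inl (l, 0)))) (c (E (.inl (l, 1)))) (x (E (.inl (l, 0))))
          (x (E (.inl (l, 1)))) with hC
    have h3 : ∀ a : V (c (E (.inr ⟨q0, y0⟩))), ∀ q ∈ (univ : Finset (Fin r)).erase q0,
        (volume (K := K) V (d q) fun y => toFactor (K := K) (c (E (.inr ⟨q, y⟩))) (d q)
          (update x (E (.inr ⟨q0, y0⟩)) a (E (.inr ⟨q, y⟩)))) =
        volume (K := K) V (d q) fun y =>
          toFactor (K := K) (c (E (.inr ⟨q, y⟩))) (d q) (x (E (.inr ⟨q, y⟩))) := by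
      intro a q hq
      have hq' := Finset.ne_of_mem_erase hq
      congr 1
      funext y
      rw [key a]
      intro h
      exact hq' (congrArg Sigma.fst (Sum.inr_injective h))
    set D := ∏ q ∈ (univ : Finset (Fin r)).erase q0, volume (K := K) V (d q) fun y =>
          toFactor (K := K) (c (E (.inr ⟨q, y⟩))) (d q) (x (E (.inr ⟨q, y⟩))) with hD
    refine ⟨(C * D) • ((Module.finBasis K (V (d q0))).det.toMultilinearMap.toLinearMap
      (fun y => toFactor (K := K) (c (E (.inr ⟨q0, y⟩))) (d q0) (x (E (.inr ⟨q0, y⟩)))) y0).comp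
      (toFactor (K := K) (c (E (.inr ⟨q0, y0⟩))) (d q0)), fun a => ?_⟩
    change QP ω c d E (update x (E (.inr ⟨q0, y0⟩)) a) = (C * D) *
      (Module.finBasis K (V (d q0))).det (update (fun y => toFactor (K := K) (c (E (.inr ⟨q0, y⟩)))
        (d q0) (x (E (.inr ⟨q0, y⟩)))) y0 (toFactor (K := K) (c (E (.inr ⟨q0, y0⟩))) (d q0) a))
    rw [QP, h2, ← Finset.mul_prod_erase _ _ (Finset.mem_univ q0), Finset.prod_congr rfl (h3 a)]
    have h4 : (fun y => toFactor (K := K) (c (E (.inr ⟨q0, y⟩))) (d q0)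
        (update x (E (.inr ⟨q0, y0⟩)) a (E (.inr ⟨q0, y⟩)))) =
        update (fun y => toFactor (K := K) (c (E (.inr ⟨q0, y⟩)))
        (d q0) (x (E (.inr ⟨q0, y⟩)))) y0 (toFactor (K := K) (c (E (.inr ⟨q0, y0⟩))) (d q0) a) := by
      funext y
      by_cases hy : y = y0
      · subst hy
        rw [update_self, update_self]
      · rw [update_of_ne hy, key a]
        intro h
        have h5 := Sum.inr_injective h
        rw [Sigma.mk.inj_iff] at h5
        exact hy (eq_of_heq h5.2)
    rw [h4, volume]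
    ring

/-- the multilinear form -/
noncomputable def QM (ω : ∀ i j, V i →ₗ[K] V j →ₗ[K] K) (c : S → J) {r m : ℕ} (d : Fin r → J)
    (E : (Fin m × Fin 2) ⊕ (Σ q : Fin r, Fin (finrank K (V (d q)))) ≃ S) :
    MultilinearMap K (fun s => V (c s)) K where
  toFun x := QP ω c d E x
  map_update_add' {_} x s a b := by
    obtain ⟨L, hL⟩ := QP_lin (ω := ω) E x s
    rw [hL, hL, hL, map_add]
  map_update_smul' {_} x s r a := by
    obtain ⟨L, hL⟩ := QP_lin (ω := ω) E x s
    rw [hL, hL, map_smul]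

end Pool.Agent.T6.H17.LU
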