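import Mathlib
import Pool.Agent.T6.H17.LU.Prod

/-!
# Invariant multilinear maps are combinations of products of pairings and determinants
-/

set_option autoImplicit false
set_option linter.unusedSectionVars false

namespace Pool.Agent.T6.H17.LU

open Module Finset Function Pool.Agent.T6.H17.LW Pool.Agent.Y90 Pool.Agent.H204R3.SP

variable {K : Type} [Field K] [CharZero K] {J : Type} [Fintype J] [DecidableEq J]
  {V : J → Type} [∀ j, AddCommGroup (V j)] [∀ j, Module K (V j)] [∀ j, FiniteDimensional K (V j)]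
  {star : J → J} {ω : ∀ i j, V i →ₗ[K] V j →ₗ[K] K} {Γ : Type} [Group Γ]
  {ρ : ∀ j, Representation K Γ (V j)} {χ : J → Γ →* K}
  {m : ℕ} {e : Basis (Fin m ⊕ Fin m) K (∀ j, V j)} {lab : Fin m ⊕ Fin m → J} {ε : J → K}
  {Ω : (∀ j, V j) →ₗ[K] (∀ j, V j) →ₗ[K] K} {S : Type} [Fintype S] [DecidableEq S]

/-- the determinants of the matrices are determinants with respect to a basis -/
theorem det_eq (h : Adp star ω e lab ε Ω) (j : J) (z : Mem lab j → Fin m ⊕ Fin m) :
    Matrix.det (Matrix.of fun y y' : Mem lab j => if z y = y'.1 then (1 : K) else 0) =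
      (h.basis j).det fun y => e (z y) j := by
  rw [Basis.det_apply, ← Matrix.det_transpose]
  congr 1
  ext y y'
  rw [Matrix.transpose_apply, Matrix.of_apply, Basis.toMatrix_apply, h.repr]

/-- the change of bases -/
theorem det_volume (h : Adp star ω e lab ε Ω) (j : J)
    (σ : Fin (finrank K (V j)) ≃ {x // lab x = j}) (v : Mem lab j → V j) :
    (h.basis j).det v = ((h.basis j).reindex σ.symm).det (Module.finBasis K (V j)) *
      volume V j fun y => v (σ y) := by
  have h1 := AlternatingMap.eq_smul_basis_det (Module.finBasis K (V j))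
    ((h.basis j).reindex σ.symm).det
  have h2 := congrArg (fun F : V j [⋀^Fin (finrank K (V j))]→ₗ[K] K => F fun y => v (σ y)) h1
  simp only [AlternatingMap.smul_apply, smul_eq_mul] at h2
  rw [volume, ← h2, Basis.det_reindex]
  congr 1
  funext y
  rw [Function.comp_apply, Equiv.apply_symm_apply]

theorem exists_QP (hP : IsPaired star ρ ω χ) (h : Adp star ω e lab ε Ω) {c : S → J} {S' : Type}
    [Fintype S'] [DecidableEq S'] (C : S' → J) {r : ℕ} (φ : Fin r ≃ S')
    {G : (S → Fin m ⊕ Fin m) → K} (hG : G ∈ PD S lab Sum.swap (jn e Ω) C) :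
    ∃ (m' : ℕ) (E : (Fin m' × Fin 2) ⊕ (Σ q : Fin r, Fin (finrank K (V (C (φ q))))) ≃ S) (a : K),
      ∀ I, (∀ s, lab (I s) = c s) →
        G I = a * QP ω c (fun q => C (φ q)) E (fun s => e (I s) (c s)) := by
  classical
  obtain ⟨n, S0, e2, cc, rfl⟩ := hG
  let σ : ∀ j, Fin (finrank K (V j)) ≃ {x // lab x = j} := fun j =>
    Fintype.equivOfCardEq (by rw [Fintype.card_fin, h.card])
  let ψ : Fin (Fintype.card S0) ≃ S0 := (Fintype.equivFin S0).symm
  let E : (Fin (Fintype.card S0) × Fin 2) ⊕ (Σ q : Fin r, Fin (finrank K (V (C (φ q))))) ≃ S :=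
    (Equiv.sumCongr (ψ.prodCongr (Equiv.refl _))
      (Equiv.sigmaCongr φ fun q => σ (C (φ q)))).trans e2
  refine ⟨Fintype.card S0, E, (∏ s : S0, (if c (e2 (Sum.inl (s, 0))) = cc s then
    ε (c (e2 (Sum.inl (s, 0)))) else 0)) *
    ∏ q : S', ((h.basis (C q)).reindex (σ (C q)).symm).det (Module.finBasis K (V (C q))),
    fun I hI => ?_⟩
  have h1 : (∏ s : S0, (if lab (I (e2 (Sum.inl (s, 0)))) = cc s then
      JJ Sum.swap (jn e Ω) (I (e2 (Sum.inl (s, 0)))) (I (e2 (Sum.inl (s, 1)))) else 0)) =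
      (∏ s : S0, (if c (e2 (Sum.inl (s, 0))) = cc s then ε (c (e2 (Sum.inl (s, 0)))) else 0)) *
      ∏ l, ω (c (E (.inl (l, 0)))) (c (E (.inl (l, 1)))) (e (I (E (.inl (l, 0)))) (c (E (.inl (l, 0)))))
        (e (I (E (.inl (l, 1)))) (c (E (.inl (l, 1))))) := by
    rw [← Equiv.prod_comp ψ, ← Equiv.prod_comp ψ, ← Finset.prod_mul_distrib]
    refine Finset.prod_congr rfl fun l _ => ?_
    change (if lab (I (e2 (Sum.inl (ψ l, 0)))) = cc (ψ l) then
      JJ Sum.swap (jn e Ω) (I (e2 (Sum.inl (ψ l, 0)))) (I (e2 (Sum.inl (ψ l, 1)))) else 0) =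
      (if c (e2 (Sum.inl (ψ l, 0))) = cc (ψ l) then ε (c (e2 (Sum.inl (ψ l, 0)))) else 0) *
      ω (c (e2 (Sum.inl (ψ l, 0)))) (c (e2 (Sum.inl (ψ l, 1))))
        (e (I (e2 (Sum.inl (ψ l, 0)))) (c (e2 (Sum.inl (ψ l, 0)))))
        (e (I (e2 (Sum.inl (ψ l, 1)))) (c (e2 (Sum.inl (ψ l, 1)))))
    rw [h.JJ_eq, h.om_e hP _ _ (hI (e2 (Sum.inl (ψ l, 0)))) (hI (e2 (Sum.inl (ψ l, 1)))), hI]
    by_cases h2 : c (e2 (Sum.inl (ψ l, 0))) = cc (ψ l)
    · rw [if_pos h2, if_pos h2]
    · rw [if_neg h2, if_neg h2, zero_mul]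
  have h2 : (∏ q : S', Matrix.det (Matrix.of fun y y' : Mem lab (C q) =>
      if I (e2 (Sum.inr ⟨q, y⟩)) = y'.1 then (1 : K) else 0)) =
      (∏ q : S', ((h.basis (C q)).reindex (σ (C q)).symm).det (Module.finBasis K (V (C q)))) *
      ∏ q : Fin r, volume (K := K) V (C (φ q)) fun y => toFactor (K := K) (c (E (.inr ⟨q, y⟩)))
        (C (φ q)) (e (I (E (.inr ⟨q, y⟩))) (c (E (.inr ⟨q, y⟩)))) := by
    rw [← Equiv.prod_comp φ, ← Equiv.prod_comp φ, ← Finset.prod_mul_distrib]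
    refine Finset.prod_congr rfl fun q _ => ?_
    rw [det_eq h, det_volume h _ (σ (C (φ q)))]
    congr 2
    funext y
    change e (I (e2 (Sum.inr ⟨φ q, σ (C (φ q)) y⟩))) (C (φ q)) =
      toFactor (K := K) (c (e2 (Sum.inr ⟨φ q, σ (C (φ q)) y⟩))) (C (φ q))
        (e (I (e2 (Sum.inr ⟨φ q, σ (C (φ q)) y⟩))) (c (e2 (Sum.inr ⟨φ q, σ (C (φ q)) y⟩))))
    rw [toFactor_apply]
    intro h3
    refine h.off _ _ ?_
    rw [hI]
    exact Ne.symm h3
  simp only at h1 h2 ⊢
  rw [h1, h2, QP]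
  ring

/-- multilinear forms with the same coordinates -/
theorem crd_inj (h : Adp star ω e lab ε Ω) {c : S → J} {f g : MultilinearMap K (fun s => V (c s)) K}
    (hfg : ∀ I, (∀ s, lab (I s) = c s) → crd e f I = crd e g I) : f = g := by
  refine Module.Basis.ext_multilinear (fun s => h.basis (c s)) fun r => ?_
  have h1 := hfg (fun s => (r s).1) (fun s => (r s).2)
  have h2 : (fun s => h.basis (c s) (r s)) = fun s => e (r s).1 (c s) := by
    funext s
    exact h.basis_apply (c s) (r s)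
  rw [h2]
  exact h1

/-- **Invariant forms** are combinations of products of pairings and determinants. -/
theorem mem_span_QM (hP : IsPaired star ρ ω χ) (h : Adp star ω e lab ε Ω)
    (hN : ∀ j, 0 < finrank K (V j)) {c : S → J} {r : ℕ}
    (φ : Fin r ≃ (Σ j, Fin (dz K V star c j).toNat)) {f : MultilinearMap K (fun s => V (c s)) K}
    (hinv : ∀ (j : J) (X : End K (∀ j, V j)), X ∈ spL Ω → (∀ i, i ≠ j → i ≠ star j → blk X i = 0) →
      LinearMap.trace K (V j) (blk X j) = 0 →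
      ∀ v, ∑ s, f (update v s (blk X (c s) (v s))) = 0) :
    f ∈ Submodule.span K {g | ∃ (m' : ℕ)
      (E : (Fin m' × Fin 2) ⊕ (Σ q : Fin r, Fin (finrank K (V (φ q).1))) ≃ S),
        g = QM ω c (fun q => (φ q).1) E} := by
  classical
  have h1 := crd_mem hP h hN hinv
  have h2 : ∀ F ∈ Submodule.span K (PD S lab Sum.swap (jn e Ω)
      (Sigma.fst : (Σ j, Fin (dz K V star c j).toNat) → J)),
      ∃ g ∈ Submodule.span K {g | ∃ (m' : ℕ)
      (E : (Fin m' × Fin 2) ⊕ (Σ q : Fin r, Fin (finrank K (V (φ q).1))) ≃ S),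
        g = QM ω c (fun q => (φ q).1) E}, ∀ I, (∀ s, lab (I s) = c s) → F I = crd e g I := by
    intro F hF
    induction hF using Submodule.span_induction with
    | mem F hF =>
      obtain ⟨m', E, a, ha⟩ := exists_QP hP h (c := c) Sigma.fst φ hF
      exact ⟨a • QM ω c (fun q => (φ q).1) E,
        Submodule.smul_mem _ _ (Submodule.subset_span ⟨m', E, rfl⟩), fun I hI => ha I hI⟩
    | zero => exact ⟨0, Submodule.zero_mem _, fun I _ => rfl⟩
    | add F F' _ _ hF hF' =>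
      obtain ⟨g, hg, hg'⟩ := hF
      obtain ⟨g', hg1, hg1'⟩ := hF'
      exact ⟨g + g', Submodule.add_mem _ hg hg1, fun I hI => by
        rw [Pi.add_apply, hg' I hI, hg1' I hI]
        rfl⟩
    | smul a F _ hF =>
      obtain ⟨g, hg, hg'⟩ := hF
      exact ⟨a • g, Submodule.smul_mem _ _ hg, fun I hI => by
        rw [Pi.smul_apply, hg' I hI]
        rfl⟩
  obtain ⟨g, hg, hg'⟩ := h2 _ h1
  rw [crd_inj h hg']
  exact hg

end Pool.Agent.T6.H17.LU
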