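import Mathlib
import Pool.Agent.T6.H17.LU.Split
import Pool.Agent.T6.H17.LW.Tate

/-!
# The main theorem: products of pairings, of determinants, and of Tate vectors
-/

set_option autoImplicit false
set_option linter.unusedSectionVars false

namespace Pool.Agent.T6.H17.LU

open Module Finset Function
open Pool.Agent.T6.H17.LO (Core Good core_linear core_form)
open Pool.Agent.T6.H17.LW hiding Unrelated BigMonodromy pf_of_unrelated split pairing

variable {K : Type} [Field K] [CharZero K] {J : Type} [Fintype J] [DecidableEq J]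
  {V : J → Type} [∀ j, AddCommGroup (V j)] [∀ j, Module K (V j)] [∀ j, FiniteDimensional K (V j)]
  {star : J → J} {ω : ∀ i j, V i →ₗ[K] V j →ₗ[K] K} {Γ : Type} [Group Γ]
  {ρ : ∀ j, Representation K Γ (V j)} {χ : J → Γ →* K}

theorem IsPaired.nondegenerate' (hP : IsPaired star ρ ω χ) (j : J) (y : V (star j))
    (h : ∀ x, ω j (star j) x y = 0) : y = 0 := by
  refine hP.nondegenerate (star j) y ?_
  have h1 : ∀ i, i = j → ∀ x : V i, ω (star j) i y x = 0 := by
    intro i hij x
    have h3 : ω i (star j) x y = 0 := by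
      subst hij
      exact h x
    rcases hP.symm (star j) with h2 | h2
    · rw [h2, h3]
    · rw [h2, h3, neg_zero]
  exact h1 _ (hP.star_star j)

section words

variable [IsAlgClosed K] {m : ℕ} {e : Basis (Fin m ⊕ Fin m) K (∀ j, V j)}
  {lab : Fin m ⊕ Fin m → J} {ε : J → K} {Ω : (∀ j, V j) →ₗ[K] (∀ j, V j) →ₗ[K] K}

/-- the blocks of an operator are given by a word -/
theorem words_blk (hP : IsPaired star ρ ω χ) (h : Adp star ω e lab ε Ω) {j : J}
    {X : End K (∀ j, V j)} (hX : X ∈ spL Ω) (hoff : ∀ i, i ≠ j → i ≠ star j → blk X i = 0)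
    {w : Wd K Γ} (h1 : act (ρ j) w = blk X j) (h2 : ∀ i, i ≠ j → i ≠ star j → act (ρ i) w = 0)
    (h3 : act (chr (χ j)) w = 0) (i : J) : act (ρ i) w = blk X i := by
  by_cases hij : i = j
  · rw [hij, h1]
  by_cases hij' : i = star j
  · subst hij'
    apply LinearMap.ext
    intro y
    rw [← sub_eq_zero]
    refine hP.nondegenerate' j _ fun x => ?_
    have h4 := act_bil (ρ j) (ρ (star j)) (chr (χ j)) (ω j (star j))
      (fun g x y => hP.multiplier j (star j) g x y) w x y
    rw [h3, LinearMap.zero_apply, h1] at h4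
    have h5 := hX (Pi.single j x) (Pi.single (star j) y)
    have h6 : ∀ z : ∀ j, V j, Ω z (Pi.single (star j) y) = ε j * ω j (star j) (z j) y := by
      intro z
      rw [h.om, Finset.sum_eq_single j]
      · rw [Pi.single_eq_same]
      · intro k _ hk
        rw [Pi.single_eq_of_ne (fun h7 => hk (by rw [← hP.star_star k, h7, hP.star_star])), map_zero,
          mul_zero]
      · intro h7
        exact absurd (Finset.mem_univ _) h7
    have h7 : ∀ z : ∀ j, V j, Ω (Pi.single j x) z = ε j * ω j (star j) x (z (star j)) := by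
      intro z
      rw [h.om, Finset.sum_eq_single j]
      · rw [Pi.single_eq_same]
      · intro k _ hk
        rw [Pi.single_eq_of_ne hk, map_zero, LinearMap.zero_apply, mul_zero]
      · intro h7
        exact absurd (Finset.mem_univ _) h7
    rw [h6, h7, ← mul_add] at h5
    have h8 := (mul_eq_zero.1 h5).resolve_left (h.eps j)
    have h9 : ω j (star j) (blk X j x) y + ω j (star j) x (blk X (star j) y) = 0 := h8
    rw [map_sub]
    linear_combination h4 - h9
  · rw [h2 i hij hij', hoff i hij hij']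

end words

section coeff

variable {S : Type} [Fintype S] {c : S → J} {r m : ℕ} {d : Fin r → J}

theorem toFactor_rho (i j : J) (g : Γ) (x : V i) :
    toFactor (K := K) i j (ρ i g x) = ρ j g (toFactor (K := K) i j x) := by
  by_cases h : i = j
  · subst h
    rw [toFactor_self, toFactor_self]
  · rw [toFactor_ne h, toFactor_ne h, map_zero]

theorem volume_rho (j : J) (g : Γ) (v : Fin (finrank K (V j)) → V j) :
    volume (K := K) V j (fun y => ρ j g (v y)) = LinearMap.det (ρ j g) * volume (K := K) V j v := by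
  rw [volume, volume]
  exact Basis.det_comp (Module.finBasis K (V j)) (ρ j g) v

theorem QP_rho (hP : IsPaired star ρ ω χ)
    (E : (Fin m × Fin 2) ⊕ (Σ q : Fin r, Fin (finrank K (V (d q)))) ≃ S) (g : Γ)
    (x : ∀ s, V (c s)) : QP ω c d E (fun s => ρ (c s) g (x s)) =
      ((∏ l, χ (c (E (.inl (l, 0)))) g) * ∏ q, LinearMap.det (ρ (d q) g)) * QP ω c d E x := by
  unfold QP
  have h1 : ∀ l, ω (c (E (.inl (l, 0)))) (c (E (.inl (l, 1))))
      (ρ (c (E (.inl (l, 0)))) g (x (E (.inl (l, 0))))) (ρ (c (E (.inl (l, 1)))) g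
      (x (E (.inl (l, 1))))) = χ (c (E (.inl (l, 0)))) g * ω (c (E (.inl (l, 0))))
      (c (E (.inl (l, 1)))) (x (E (.inl (l, 0)))) (x (E (.inl (l, 1)))) := fun l =>
    hP.multiplier _ _ _ _ _
  have h2 : ∀ q, (volume (K := K) V (d q) fun y => toFactor (K := K) (c (E (.inr ⟨q, y⟩))) (d q)
      (ρ (c (E (.inr ⟨q, y⟩))) g (x (E (.inr ⟨q, y⟩))))) = LinearMap.det (ρ (d q) g) *
      volume (K := K) V (d q) fun y => toFactor (K := K) (c (E (.inr ⟨q, y⟩))) (d q)
        (x (E (.inr ⟨q, y⟩))) := by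
    intro q
    rw [← volume_rho]
    congr 1
    funext y
    rw [toFactor_rho]
  rw [Finset.prod_congr rfl fun l _ => h1 l, Finset.prod_congr rfl fun q _ => h2 q,
    Finset.prod_mul_distrib, Finset.prod_mul_distrib]
  ring

theorem finite_QP (ω : ∀ i j, V i →ₗ[K] V j →ₗ[K] K) (c : S → J) (d : Fin r → J) :
    {p : (∀ s, V (c s)) → K | ∃ (m : ℕ)
      (E : (Fin m × Fin 2) ⊕ (Σ q : Fin r, Fin (finrank K (V (d q)))) ≃ S),
      p = QP ω c d E}.Finite := by
  classical
  have h1 : {p : (∀ s, V (c s)) → K | ∃ (m : ℕ)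
      (E : (Fin m × Fin 2) ⊕ (Σ q : Fin r, Fin (finrank K (V (d q)))) ≃ S), p = QP ω c d E} ⊆
      ⋃ m ∈ Finset.range (Fintype.card S + 1), Set.range
        fun E : (Fin m × Fin 2) ⊕ (Σ q : Fin r, Fin (finrank K (V (d q)))) ≃ S => QP ω c d E := by
    rintro _ ⟨m, E, rfl⟩
    rw [Set.mem_iUnion₂]
    refine ⟨m, ?_, E, rfl⟩
    have h2 := Fintype.card_congr E
    rw [Fintype.card_sum, Fintype.card_prod, Fintype.card_fin, Fintype.card_fin] at h2
    rw [Finset.mem_range]
    omega
  refine Set.Finite.subset ?_ h1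
  exact Set.Finite.biUnion (Finset.finite_toSet _) fun m _ => Set.finite_range _

end coeff

section main

variable [IsAlgClosed K] {M : Type} [AddCommGroup M] [Module K M] [FiniteDimensional K M]
  {τ : Representation K Γ M} {S : Type} [Fintype S] [DecidableEq S] {c : S → J}

theorem ediv_nonpos {a : ℤ} (n : ℕ) (h : a ≤ 0) : a / (n : ℤ) ≤ 0 := by
  rcases Nat.eq_zero_or_pos n with hn | hn
  · rw [hn]
    simp
  · have h1 := Int.ediv_le_ediv (a := a) (b := 0) (c := (n : ℤ)) (by exact_mod_cast hn) h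
    rwa [Int.zero_ediv] at h1

theorem dz_ne (hP : IsPaired star ρ ω χ) {j : J} (h : 0 < dz K V star c j) :
    dz K V star c (star j) ≤ 0 := by
  unfold dz at h ⊢
  rw [hP.star_star]
  refine ediv_nonpos _ ?_
  by_contra hcon
  have h1 := ediv_nonpos (a := ((Finset.univ.filter fun s => c s = j).card : ℤ) -
      (Finset.univ.filter fun s => c s = star j).card) (finrank K (V j)) (by omega)
  omega

/-- **The main theorem.** -/
theorem split (hP : IsPaired star ρ ω χ) (hb : ∀ j, BigMonodromy (ρ j))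
    (hiso : ∀ i j, j ≠ i → j ≠ star i → Unrelated (ρ i) (ρ j) ∨ Unrelated (ρ j) (ρ i))
    (hτ : ∀ j, Unrelated (ρ j) τ) {h : MultilinearMap K (fun s => V (c s)) M}
    (hh : ∃ Δ : Subgroup Γ, Δ.FiniteIndex ∧ ∀ g ∈ Δ, ∀ x,
      h (fun s => ρ (c s) g (x s)) = τ g (h x)) :
    ∃ (r : ℕ) (d : Fin r → J), (∀ q q', d q' ≠ star (d q)) ∧
    h ∈ Submodule.span K {f | ∃ (m : ℕ)
      (E : (Fin m × Fin 2) ⊕ (Σ q : Fin r, Fin (finrank K (V (d q)))) ≃ S) (w : M),
      (∃ Δ : Subgroup Γ, Δ.FiniteIndex ∧ ∀ g ∈ Δ, τ g w =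
        ((∏ l, χ (c (E (.inl (l, 0)))) g) * ∏ q, LinearMap.det (ρ (d q) g)) • w) ∧
      ∀ x, f x = QP ω c d E x • w} := by
  classical
  have hgood := fun j => good_of (hb j)
  have hpair : ∀ i j, j ≠ i → j ≠ star i →
      Pf (LinearMap.ker (LinearMap.trace K (V i))) (act (ρ i)) (act (ρ j)) := by
    intro i j hij hij'
    rcases hiso i j hij hij' with h1 | h1
    · exact pf_of_unrelated (hb i) h1
    · exact (hgood j).symm (hgood i) (pf_of_unrelated (hb j) h1)
  have hw : ∀ j, ∀ Y ∈ LinearMap.ker (LinearMap.trace K (V j)), ∃ w : Wd K Γ, act (ρ j) w = Y ∧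
      (∀ i, i ≠ j ∧ i ≠ star j → act (ρ i) w = 0) ∧ pr (act τ) (act (chr (χ j))) w = 0 := by
    intro j
    refine pf_joint (hgood j).perfect (isAct_act (ρ j)) (hgood j).full_act (fun i => isAct_act (ρ i))
      (fun i => i ≠ j ∧ i ≠ star j) (fun i hi => hpair j i hi.1 hi.2)
      (isAct_pr (isAct_act τ) (isAct_act (chr (χ j))))
      (pf_pr (hgood j).perfect (isAct_act (ρ j)) (isAct_act τ) (isAct_act (chr (χ j)))
        (pf_of_unrelated (hb j) (hτ j))
        (pf_abelian (hgood j).perfect (isAct_act (ρ j)) (hgood j).full_act (chr (χ j)) (Δ := ⊤)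
          inferInstance fun g _ g' _ => ?_))
    rw [← map_mul, ← map_mul]
    apply LinearMap.ext
    intro x
    rw [chr_apply, chr_apply, map_mul, map_mul, mul_comm (χ j g)]
  obtain ⟨m, e, lab, ε, Ω, hA⟩ := exists_adp hP
  let φ : Fin (Fintype.card (Σ j, Fin (dz K V star c j).toNat)) ≃
    (Σ j, Fin (dz K V star c j).toNat) := (Fintype.equivFin _).symm
  refine ⟨Fintype.card (Σ j, Fin (dz K V star c j).toNat), fun q => (φ q).1, fun q q' hqq => ?_, ?_⟩
  · have h1 : 0 < dz K V star c (φ q).1 := by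
      have := (φ q).2.pos
      omega
    have h2 : 0 < dz K V star c (φ q').1 := by
      have := (φ q').2.pos
      omega
    have h3 := dz_ne hP h1
    change (φ q').1 = star (φ q).1 at hqq
    rw [← hqq] at h3
    omega
  -- scalar forms
  have hscal : ∀ lam : M →ₗ[K] K, lam.compMultilinearMap h ∈ Submodule.span K {g | ∃ (m' : ℕ)
      (E : (Fin m' × Fin 2) ⊕ (Σ q, Fin (finrank K (V (φ q).1))) ≃ S),
        g = QM ω c (fun q => (φ q).1) E} := by
    intro lam
    refine mem_span_QM hP hA (fun j => by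
      have := (hb j).two_le
      omega) φ ?_
    intro j X hX hoff htr v
    obtain ⟨w, hw1, hw2, hw3⟩ := hw j _ htr
    rw [pr_eq_zero] at hw3
    have h1 := words_blk hP hA hX hoff hw1 (fun i hi hi' => hw2 i ⟨hi, hi'⟩) hw3.2
    have h2 := act_multi (σ := fun s => ρ (c s)) (τ := τ) (h := h) hh w
    rw [hw3.1] at h2
    have h3 := congrArg (fun F : MultilinearMap K (fun s => V (c s)) M => lam (F v)) h2
    simp only [der_apply, LinearMap.compMultilinearMap_apply, LinearMap.zero_apply, map_zero,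
      map_sum, h1] at h3
    exact h3
  -- as functions
  have h2 : (fun x => h x) ∈ Submodule.span K {f : (∀ s, V (c s)) → M |
      ∃ p ∈ {p : (∀ s, V (c s)) → K | ∃ (m : ℕ)
      (E : (Fin m × Fin 2) ⊕ (Σ q, Fin (finrank K (V (φ q).1))) ≃ S),
        p = QP ω c (fun q => (φ q).1) E}, ∃ w : M, f = fun x => p x • w} := by
    have b := Module.finBasis K M
    have h3 : (fun x => h x) = ∑ i, fun x => ((b.coord i).compMultilinearMap h) x • b i := by
      funext x
      rw [Finset.sum_apply]
      exact (b.sum_repr (h x)).symm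
    rw [h3]
    refine Submodule.sum_mem _ fun i _ => ?_
    have h4 : ∀ g ∈ Submodule.span K {g | ∃ (m' : ℕ)
      (E : (Fin m' × Fin 2) ⊕ (Σ q, Fin (finrank K (V (φ q).1))) ≃ S),
        g = QM ω c (fun q => (φ q).1) E}, (fun x => g x • b i) ∈ Submodule.span K
        {f : (∀ s, V (c s)) → M |
      ∃ p ∈ {p : (∀ s, V (c s)) → K | ∃ (m : ℕ)
      (E : (Fin m × Fin 2) ⊕ (Σ q, Fin (finrank K (V (φ q).1))) ≃ S),
        p = QP ω c (fun q => (φ q).1) E}, ∃ w : M, f = fun x => p x • w} := by
      intro g hg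
      induction hg using Submodule.span_induction with
      | mem g hg =>
        obtain ⟨m', E, rfl⟩ := hg
        exact Submodule.subset_span ⟨_, ⟨m', E, rfl⟩, b i, rfl⟩
      | zero =>
        have h5 : (fun x => (0 : MultilinearMap K (fun s => V (c s)) K) x • b i) = 0 := by
          funext x
          rw [_root_.zero_apply, zero_smul]
          rfl
        rw [h5]
        exact Submodule.zero_mem _
      | add f g _ _ hf hg =>
        have h5 : (fun x => (f + g) x • b i) = (fun x => f x • b i) + fun x => g x • b i := by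
          funext x
          rw [_root_.add_apply, add_smul]
          rfl
        rw [h5]
        exact Submodule.add_mem _ hf hg
      | smul a f _ hf =>
        have h5 : (fun x => (a • f) x • b i) = a • fun x => f x • b i := by
          funext x
          rw [_root_.smul_apply, smul_assoc]
          rfl
        rw [h5]
        exact Submodule.smul_mem _ a hf
    exact h4 _ (hscal (b.coord i))
  obtain ⟨T, hT, p, w, hp, hli, hhw⟩ := indep_coeff (finite_QP ω c fun q => (φ q).1) h2
  choose m' E hE using hp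
  obtain ⟨Δ, hΔ, hh⟩ := hh
  -- the coefficients
  have hwT : ∀ t, ∀ g ∈ Δ, τ g (w t) = ((∏ l, χ (c (E t (.inl (l, 0)))) g) *
      ∏ q, LinearMap.det (ρ (φ q).1 g)) • w t := by
    intro t g hg
    refine (coeff_eq (w := fun t => ((∏ l, χ (c (E t (.inl (l, 0)))) g) *
      ∏ q, LinearMap.det (ρ (φ q).1 g)) • w t)
      (w' := fun t => τ g (w t)) hli (fun x => ?_) t).symm
    have h3 := hh g hg x
    have h4 : ∀ y, h y = ∑ t, p t y • w t := fun y => congrFun hhw y
    rw [h4, h4, map_sum] at h3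
    rw [← Finset.sum_congr rfl fun t _ => map_smul (τ g) (p t x) (w t), ← h3]
    refine Finset.sum_congr rfl fun t _ => ?_
    rw [hE t, QP_rho hP, smul_smul, mul_comm]
  have h5 : h = ∑ t, (QM ω c (fun q => (φ q).1) (E t)).smulRight (w t) := by
    ext x
    have h4 : h x = ∑ t, p t x • w t := congrFun hhw x
    rw [h4, _root_.sum_apply]
    refine Finset.sum_congr rfl fun t _ => ?_
    rw [hE t]
    rfl
  rw [h5]
  refine Submodule.sum_mem _ fun t _ => Submodule.subset_span
    ⟨m' t, E t, w t, ⟨Δ, hΔ, hwT t⟩, fun x => rfl⟩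

end main

end Pool.Agent.T6.H17.LU
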